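import Pool.Agent.Y303.EJ.Stm
import Pool.Agent.Y5.O2

/-!
Project EJ: the theorem on the main modes.
-/

open Set Filter Topology MeasureTheory Metric

set_option autoImplicit false

namespace Pool.Agent.Y303.EJ.Od

open Pool.Agent.Y5 (E3 Y Pr Pr_sub Pr_cont Pr_deriv Pr_mono Pr_zero Pr_int)
open Pool.Agent.Y5.D (Ix qd vf3 Init)
open Pool.Agent.Y6.N (Rot lin src ph XSol TSol)
open Pool.Agent.Y6.K (Kz lv)
open Pool.Agent.Y303.SK

/-- All the facts. -/
structure Al (η : ℝ) (lm L C ℓ : ℕ → ℝ) (B : ℕ → ℕ → ℝ) (T : ℝ) (x R V : ℕ → ℝ → ℝ) : Prop where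
  ch : Ch η lm L C ℓ B T x R V
  upa : UPA η lm L T R
  far : FAR η lm L T R
  low : LOW η lm L T x R
  stg : STG η lm L T x R
  enl : ENL η lm L T R
  next : NEXT η lm L T x R
  base : BASE η lm L T x R
  lip : LIP L T x

section

variable {η : ℝ} {lm L C ℓ : ℕ → ℝ} {B : ℕ → ℕ → ℝ} {T : ℝ} {x R V : ℕ → ℝ → ℝ}

lemma thc (h : Ch η lm L C ℓ B T x R V) (n : ℕ) :
    ContinuousOn (fun s => L n * R (n + 1) s) (Ico 0 T) :=
  continuousOn_const.mul (h.cR (n + 1))

lemma th_cont (h : Ch η lm L C ℓ B T x R V) (n : ℕ) : ContinuousOn (Th L R n) (Ico 0 T) :=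
  Pr_cont (thc h n)

lemma L_pos (h : Ch η lm L C ℓ B T x R V) (n : ℕ) : 0 < L n :=
  lt_of_lt_of_le one_pos (h.nm.L1 n)

lemma th_mono (h : Ch η lm L C ℓ B T x R V) (n : ℕ) {a b : ℝ} (ha : a ∈ Ico 0 T)
    (hb : b ∈ Ico 0 T) (hab : a ≤ b) : Th L R n a ≤ Th L R n b :=
  Pr_mono (thc h n) ha hb hab fun t ht => mul_nonneg (L_pos h n).le
    (h.R0 _ t ⟨ha.1.trans ht.1.le, ht.2.trans hb.2⟩)

lemma th_zero (n : ℕ) : Th L R n 0 = 0 := by simp [Th]

lemma th_nonneg (h : Ch η lm L C ℓ B T x R V) (n : ℕ) {a : ℝ} (ha : a ∈ Ico 0 T) :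
    0 ≤ Th L R n a := by
  have := th_mono h n (a := 0) (b := a) ⟨le_rfl, h.hT⟩ ha ha.1
  rwa [th_zero] at this

lemma R_le (h : Ch η lm L C ℓ B T x R V) (n : ℕ) {t : ℝ} (ht : t ∈ Ico 0 T) : R n t ≤ 1 := by
  induction n with
  | zero => exact h.R1 t ht
  | succ n ih =>
    have h1 := h.Rsq n t ht
    have h2 := h.R0 n t ht
    have h3 := h.R0 (n + 1) t ht
    nlinarith [sq_nonneg (x n t)]

lemma x_le_R (h : Ch η lm L C ℓ B T x R V) (n : ℕ) {t : ℝ} (ht : t ∈ Ico 0 T) :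
    |x n t| ≤ R n t := by
  have h1 := h.Rsq n t ht
  exact abs_le_of_sq_le_sq (by nlinarith [sq_nonneg (R (n + 1) t)]) (h.R0 n t ht)

lemma th_incr (h : Ch η lm L C ℓ B T x R V) (n : ℕ) {a b M : ℝ} (ha : a ∈ Ico 0 T)
    (hb : b ∈ Ico 0 T) (hab : a ≤ b) (hM : ∀ t ∈ Icc a b, R (n + 1) t ≤ M) :
    Th L R n b - Th L R n a ≤ L n * M * (b - a) := by
  rw [Th, Th, Pr_sub (thc h n) ha hb]
  have h1 : (∫ τ in a..b, L n * R (n + 1) τ) ≤ ∫ τ in a..b, L n * M := by
    refine intervalIntegral.integral_mono_on hab (Pr_int (thc h n) ha hb) (by simp) ?_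
    intro t ht
    exact mul_le_mul_of_nonneg_left (hM t ht) (L_pos h n).le
  refine h1.trans (le_of_eq ?_)
  rw [intervalIntegral.integral_const, smul_eq_mul]
  ring

lemma th_incr1 (h : Ch η lm L C ℓ B T x R V) (n : ℕ) {a b : ℝ} (ha : a ∈ Ico 0 T)
    (hb : b ∈ Ico 0 T) (hab : a ≤ b) : Th L R n b - Th L R n a ≤ L n * (b - a) := by
  have := th_incr h n ha hb hab (M := 1) fun t ht =>
    R_le h _ ⟨ha.1.trans ht.1, ht.2.trans_lt hb.2⟩
  simpa using this

lemma th_ivt (h : Ch η lm L C ℓ B T x R V) (n : ℕ) {a b c : ℝ} (ha : a ∈ Ico 0 T)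
    (hb : b ∈ Ico 0 T) (hab : a ≤ b) (h1 : Th L R n a ≤ c) (h2 : c ≤ Th L R n b) :
    ∃ t ∈ Icc a b, Th L R n t = c := by
  have hc : ContinuousOn (Th L R n) (Icc a b) := (th_cont h n).mono fun t ht =>
    ⟨ha.1.trans ht.1, ht.2.trans_lt hb.2⟩
  obtain ⟨t, ht, h3⟩ := intermediate_value_Icc hab hc ⟨h1, h2⟩
  exact ⟨t, ht, h3⟩

/-! ### Lengths -/

/-- length of the stage `k` -/
noncomputable def D (η : ℝ) (L : ℕ → ℝ) (k : ℕ) : ℝ := 1 / (dl η (k + 1) * L k)

lemma D_pos (h : Ch η lm L C ℓ B T x R V) (k : ℕ) : 0 < D η L k := by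
  have h1 := h.nm.d0 (k + 1)
  have h2 := L_pos h k
  unfold D
  positivity

lemma D_succ (h : Ch η lm L C ℓ B T x R V) (k : ℕ) : D η L (k + 1) ≤ D η L k / 2 := by
  have h1 := h.nm.d0 (k + 1)
  have h2 := L_pos h k
  have h3 := L_pos h (k + 1)
  have h4 := h.nm.Ls k
  have h5 := h.nm.ds (k + 1)
  have h6 := h.nm.d1 (k + 1)
  have h7 := h.nm.d0 (k + 2)
  unfold D
  rw [div_div, one_div_le_one_div (by positivity) (by positivity)]
  have h8 : dl η (k + 1 + 1) = dl η (k + 1) / 4 := h5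
  rw [h8]
  nlinarith [mul_pos h1 h2]

lemma dl_lm (h : Ch η lm L C ℓ B T x R V) (k : ℕ) : 10 ^ 20 ≤ dl η k ^ 2 * lm k := by
  have h1 := h.sq.lm_big k
  have h2 := h.nm.d0 k
  have h3 := h.nm.d1 k
  have h4 := h.nm.lm1 k
  have h5 : dl η k ^ 2 ≤ 1 := by nlinarith
  have h6 : 0 ≤ dl η k ^ 2 * lm k := by
    have : (0 : ℝ) ≤ lm k := by linarith
    positivity
  nlinarith

lemma LD (h : Ch η lm L C ℓ B T x R V) (i : ℕ) : L i * D η L (i + 1) ≤ dl η (i + 1) / 1000 := by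
  have h1 := h.nm.d0 (i + 1)
  have h2 := L_pos h i
  have h3 := L_pos h (i + 1)
  have h4 := h.sq.lm_succ i
  have h8 : dl η (i + 1 + 1) = dl η (i + 1) / 4 := h.nm.ds (i + 1)
  have h9 := dl_lm h (i + 1)
  unfold D
  rw [h8, mul_one_div, div_le_iff₀ (by positivity), ← h4]
  nlinarith

/-! ### The clock `n + 1` is small as long as the clock `n` is not close to `π / 2` -/

lemma th_small (h : Al η lm L C ℓ B T x R V) (n : ℕ) {t : ℝ} (ht : t ∈ Ico 0 T)
    (h1 : L 0 * t ≤ 3 * lm 0) (h2 : ∀ i < n, Th L R i t ≤ 2)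
    (h3 : Th L R n t ≤ Real.pi / 2 - dl η (n + 1)) :
    Th L R (n + 1) t ≤ cn η (n + 1) / 100 := by
  have hch := h.ch
  have hQ1 := hch.nm.Q1 (n + 1)
  have hQL := hch.nm.QL (n + 1) (n + 1) (by omega)
  have hQlm := hch.nm.Qlm (n + 1) 0 (by omega)
  have hQd := hch.nm.Qd (n + 1) (n + 2) (by omega)
  have hexp := hch.nm.Qexp (n + 1) 4 (-(99 / 100 * dl η (n + 1))) 0 (by
    have := hch.nm.d0 (n + 1)
    push_cast
    linarith)
  have hL := L_pos hch (n + 1)
  have hL0 := hch.nm.L1 0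
  have hlm0 := hch.nm.lm1 0
  have hd := hch.nm.d0 (n + 2)
  set q := Q η lm (n + 1) with hq
  have hq0 : 0 < q := by linarith
  set E := Real.exp (-(99 / 100 * dl η (n + 1)) * lm (n + 1)) with hE
  have hE0 : 0 < E := Real.exp_pos _
  have hqE : q ^ 4 * E ≤ 1 := by simpa using hexp
  have hR : ∀ s ∈ Icc 0 t, R (n + 1 + 1) s ≤ E := by
    intro s hs
    have hs' : s ∈ Ico 0 T := ⟨hs.1, hs.2.trans_lt ht.2⟩
    have h4 := h.upa.2 n s hs' (by nlinarith [hs.2]) (fun i hi =>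
      (th_mono hch i hs' ht hs.2).trans (h2 i hi))
    refine h4.trans (Real.exp_le_exp.2 ?_)
    have h5 := th_mono hch n hs' ht hs.2
    have h6 : 0 ≤ lm (n + 1) := by linarith [hch.nm.lm1 (n + 1)]
    nlinarith
  have h7 := th_incr hch (n + 1) (a := 0) ⟨le_rfl, hch.hT⟩ ht ht.1 hR
  rw [th_zero, sub_zero, sub_zero] at h7
  refine h7.trans ?_
  have h8 : t ≤ 3 * lm 0 := by nlinarith [ht.1]
  have h9 : L (n + 1) * E * t ≤ q * E * (3 * q) := by
    have e1 : L (n + 1) * E ≤ q * E := mul_le_mul_of_nonneg_right hQL hE0.le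
    have e2 : t ≤ 3 * q := h8.trans (by linarith)
    exact mul_le_mul e1 e2 ht.1 (by positivity)
  refine h9.trans ?_
  unfold cn
  have h10 : 1 ≤ q * dl η (n + 1 + 1) := by
    rw [div_le_iff₀ hd] at hQd
    exact hQd
  -- `3 q² E ≤ 3 / q² ≤ 1 / (10^5 q) ≤ dl / 10^5`
  have h11 : q * E * (3 * q) * q ^ 2 ≤ 3 := by nlinarith
  have h12 : q * E * (3 * q) ≤ 3 / q ^ 2 := by
    rw [le_div_iff₀ (by positivity)]
    exact h11
  refine h12.trans ?_
  rw [div_le_iff₀ (by positivity)]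
  have h13 : dl η (n + 1 + 1) / 1000 / 100 * q ^ 2 = (q * dl η (n + 1 + 1)) * q / 100000 := by ring
  rw [h13]
  nlinarith

/-! ### The stages -/

/-- History at the beginning of the stage `n`. -/
structure Inv (η : ℝ) (lm L : ℕ → ℝ) (T : ℝ) (x R : ℕ → ℝ → ℝ) (s : ℕ → ℝ) (n : ℕ) : Prop where
  mem : s n ∈ Ico 0 T
  th : Th L R n (s n) = cn η n
  big : 95 / 100 ≤ x n (s n)
  nx : cn η n / 4 ≤ x (n + 1) (s n)
  s0 : L 0 * s 0 ≤ 2 * lm 0
  le : ∀ k ≤ n, s k ≤ s n ∧ s n ≤ s k + D η L k - D η L n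
  old : ∀ i < n, Th L R i (s (i + 1)) ≤ Real.pi / 2 + dl η (i + 1) ∧
    |x i (s (i + 1))| ≤ 2 * dl η (i + 1)

variable {s : ℕ → ℝ}

lemma inv_time (h : Al η lm L C ℓ B T x R V) {n : ℕ} (hI : Inv η lm L T x R s n) :
    L 0 * s n ≤ 29 / 10 * lm 0 := by
  have hch := h.ch
  have h1 := (hI.le 0 (Nat.zero_le n)).2
  have h2 := D_pos hch n
  have h3 := hI.s0
  have hL := L_pos hch 0
  have h4 : L 0 * D η L 0 = 1 / dl η 1 := by
    have := hch.nm.d0 1
    unfold D
    field_simp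
  have h5 : 1 / dl η 1 ≤ lm 0 / 10 := by
    have e1 := hch.nm.d0 1
    have e2 := hch.nm.lmd 0
    have e3 : dl η (0 + 1) = dl η 0 / 4 := hch.nm.ds 0
    rw [zero_add] at e3
    rw [div_le_iff₀ e1, e3]
    nlinarith
  have h6 : L 0 * s n ≤ L 0 * (s 0 + D η L 0) := by
    apply mul_le_mul_of_nonneg_left _ hL.le
    linarith
  have h7 := hch.nm.lm1 0
  nlinarith

lemma inv_old (h : Al η lm L C ℓ B T x R V) {n : ℕ} (hA : ∀ k ≤ n, Inv η lm L T x R s k) {b : ℝ}
    (hb : b ∈ Ico 0 T) (hb2 : b ≤ s n + D η L n) :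
    ∀ i < n, Th L R i b ≤ 2 := by
  intro i hi
  have hch := h.ch
  have hI := hA n le_rfl
  have h1 := hI.old i hi
  have h2 := (hA (i + 1) (by omega)).mem
  have h3 := hI.le (i + 1) (by omega)
  have hpi := Real.pi_lt_d2
  have hd := hch.nm.d1 (i + 1)
  rcases le_total b (s (i + 1)) with h4 | h4
  · have := th_mono hch i hb h2 h4
    linarith [h1.1]
  · have h5 := th_incr1 hch i h2 hb h4
    have h6 := LD hch i
    have h7 : L i * (b - s (i + 1)) ≤ L i * D η L (i + 1) :=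
      mul_le_mul_of_nonneg_left (by linarith) (L_pos hch i).le
    linarith [h1.1]

lemma inv_left (h : Al η lm L C ℓ B T x R V) {n : ℕ} (hA : ∀ k ≤ n, Inv η lm L T x R s k) {b : ℝ}
    (hb : b ∈ Ico (s n) T) (hb2 : b ≤ s n + D η L n) :
    ∀ i < n, |x i b| ≤ 3 * dl η (i + 1) := by
  intro i hi
  have hch := h.ch
  have hI := hA n le_rfl
  have h1 := hI.old i hi
  have h2 := (hA (i + 1) (by omega)).mem
  have h3 := hI.le (i + 1) (by omega)
  have h4 : s (i + 1) ≤ b := h3.1.trans hb.1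
  have h5 := h.lip i (s (i + 1)) b h2.1 h4 hb.2
  have h6 := LD hch i
  have h7 : L i * (b - s (i + 1)) ≤ L i * D η L (i + 1) :=
    mul_le_mul_of_nonneg_left (by linarith) (L_pos hch i).le
  have h8 : |x i b| ≤ |x i b - x i (s (i + 1))| + |x i (s (i + 1))| := by
    have := abs_add_le (x i b - x i (s (i + 1))) (x i (s (i + 1)))
    simpa using this
  have h9 := hch.nm.d0 (i + 1)
  nlinarith [h1.2]

/-- The stage `n`. -/
lemma stage (h : Al η lm L C ℓ B T x R V) {n : ℕ} (hA : ∀ k ≤ n, Inv η lm L T x R s k) {b : ℝ}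
    (hb : b ∈ Ico (s n) T) (h1 : Th L R n b ≤ Real.pi / 2 + dl η (n + 1))
    (h2 : Th L R (n + 1) b ≤ cn η (n + 1)) :
    His η lm L R n b ∧ b ≤ s n + D η L n / 2 ∧
    |x n b - x n (s n) * Real.cos (Th L R n b)| ≤ 10 * cn η n ∧
    |R (n + 1) b - x n (s n) * Real.sin (Th L R n b)| ≤ 10 * cn η n ∧
    (1 - dl η (n + 1) / 100) * R (n + 1) b ≤ x (n + 1) b := by
  have hch := h.ch
  have hI := hA n le_rfl
  have hs := hI.mem
  have hD := D_pos hch n
  have hD2 : 1 / (2 * (dl η (n + 1) * L n)) = D η L n / 2 := by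
    unfold D
    rw [div_div, mul_comm 2 (dl η (n + 1) * L n)]
  have key : ∀ b' ∈ Ico (s n) T, b' ≤ b → b' ≤ s n + D η L n →
      His η lm L R n b' ∧ b' - s n ≤ 1 / (2 * (dl η (n + 1) * L n)) ∧
      |x n b' - x n (s n) * Real.cos (Th L R n b')| ≤ 10 * cn η n ∧
      |R (n + 1) b' - x n (s n) * Real.sin (Th L R n b')| ≤ 10 * cn η n ∧
      cn η n / 10 ≤ R (n + 1) b' ∧
      (1 - dl η (n + 1) / 100) * R (n + 1) b' ≤ x (n + 1) b' := by
    intro b' hb' hle hle2
    have hb0 : b' ∈ Ico 0 T := ⟨hs.1.trans hb'.1, hb'.2⟩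
    have hbb : b ∈ Ico 0 T := ⟨hs.1.trans hb.1, hb.2⟩
    exact h.stg n (s n) b' hs.1 hb'.1 hb'.2 (inv_time h hI) (inv_old h hA hb0 hle2)
      ((th_mono hch n hb0 hbb hle).trans h1) ((th_mono hch (n + 1) hb0 hbb hle).trans h2) hI.th
      hI.big hI.nx
  have hbD : b ≤ s n + D η L n := by
    by_contra hcon
    push Not at hcon
    have h3 := key (s n + D η L n) ⟨by linarith, by linarith [hb.2]⟩ hcon.le le_rfl
    rw [hD2] at h3
    linarith [h3.2.1]
  have h4 := key b hb le_rfl hbD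
  rw [hD2] at h4
  exact ⟨h4.1, by linarith [h4.2.1], h4.2.2.1, h4.2.2.2.1, h4.2.2.2.2.2⟩

lemma sin_ge1 {θ d : ℝ} (hd : 0 < d) (hd1 : d ≤ 1 / 100) (h1 : d / 4 ≤ θ)
    (h2 : θ ≤ Real.pi / 2 + d) : 15 / 100 * d ≤ Real.sin θ := by
  have hpi := Real.pi_gt_d2
  have hpi2 := Real.pi_lt_d2
  rcases le_total θ (Real.pi / 2) with h3 | h3
  · have h4 := Real.mul_le_sin (x := θ) (by linarith) h3
    have h5 : (6 / 10 : ℝ) ≤ 2 / Real.pi := by
      rw [le_div_iff₀ Real.pi_pos]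
      linarith
    nlinarith
  · have h4 := Real.mul_le_sin (x := Real.pi - θ) (by linarith) (by linarith)
    rw [Real.sin_pi_sub] at h4
    have h5 : (6 / 10 : ℝ) ≤ 2 / Real.pi := by
      rw [le_div_iff₀ Real.pi_pos]
      linarith
    nlinarith

lemma sin_ge2 {θ d : ℝ} (hd : 0 < d) (hd1 : d ≤ 1 / 100) (h1 : 1 ≤ θ)
    (h2 : θ ≤ Real.pi / 2 + d) : 63 / 100 ≤ Real.sin θ := by
  have hpi := Real.pi_gt_d2
  have hpi2 := Real.pi_lt_d2
  have h5 : (63 / 100 : ℝ) ≤ 2 / Real.pi := by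
    rw [le_div_iff₀ Real.pi_pos]
    nlinarith
  rcases le_total θ (Real.pi / 2) with h3 | h3
  · have h4 := Real.mul_le_sin (x := θ) (by linarith) h3
    nlinarith
  · have h4 := Real.mul_le_sin (x := Real.pi - θ) (by linarith) (by linarith)
    rw [Real.sin_pi_sub] at h4
    nlinarith

/-- The clock `n` does not pass `π / 2` by much before the start of the stage `n + 1`. -/
lemma no_late (h : Al η lm L C ℓ B T x R V) {n : ℕ} (hA : ∀ k ≤ n, Inv η lm L T x R s k) {b : ℝ}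
    (hb : b ∈ Ico (s n) T) (h2 : Th L R (n + 1) b ≤ cn η (n + 1)) :
    Th L R n b ≤ Real.pi / 2 + dl η (n + 1) := by
  by_contra hcon
  push Not at hcon
  have hch := h.ch
  have hI := hA n le_rfl
  have hs := hI.mem
  have hd := hch.nm.d0 (n + 1)
  have hd1 := hch.nm.d1 (n + 1)
  have hpi := Real.pi_gt_d2
  have hbb : b ∈ Ico 0 T := ⟨hs.1.trans hb.1, hb.2⟩
  have hcn : cn η n = dl η (n + 1) / 1000 := rfl
  obtain ⟨b', hb', h3⟩ := th_ivt hch n (c := Real.pi / 2 + dl η (n + 1)) hs hbb hb.1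
    (by rw [hI.th, hcn]; linarith) hcon.le
  have hb0 : b' ∈ Ico 0 T := ⟨hs.1.trans hb'.1, hb'.2.trans_lt hb.2⟩
  obtain ⟨a, ha, h4⟩ := th_ivt hch n (c := dl η (n + 1) / 4) hs hb0 hb'.1
    (by rw [hI.th, hcn]; linarith) (by rw [h3]; linarith)
  have ha0 : a ∈ Ico 0 T := ⟨hs.1.trans ha.1, ha.2.trans_lt hb0.2⟩
  have h2' : Th L R (n + 1) b' ≤ cn η (n + 1) := (th_mono hch (n + 1) hb0 hbb hb'.2).trans h2
  have hst := stage h hA (b := b') ⟨hb'.1, hb0.2⟩ h3.le h2'
  have h5 := h.low n a b' ha0.1 ha.2 hb0.2 hst.1 (by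
    have := hst.2.1
    have e := D_pos hch n
    have e2 : 1 / (dl η (n + 1) * L n) = D η L n := rfl
    rw [e2]
    linarith [ha.1]) (by
    intro t ht
    have ht0 : t ∈ Ico 0 T := ⟨ha0.1.trans ht.1, ht.2.trans_lt hb0.2⟩
    have e1 : Th L R n t ≤ Real.pi / 2 + dl η (n + 1) :=
      (th_mono hch n ht0 hb0 ht.2).trans h3.le
    have e2 : dl η (n + 1) / 4 ≤ Th L R n t := by
      rw [← h4]
      exact th_mono hch n ha0 ht0 ht.1
    have e3 := stage h hA (b := t) ⟨ha.1.trans ht.1, ht0.2⟩ e1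
      ((th_mono hch (n + 1) ht0 hb0 ht.2).trans h2')
    have e4 := sin_ge1 hd hd1 e2 e1
    have e5 := (abs_le.1 e3.2.2.2.1).1
    have e6 := hI.big
    have e7 : 95 / 100 * (15 / 100 * dl η (n + 1)) ≤ x n (s n) * Real.sin (Th L R n t) :=
      mul_le_mul e6 e4 (by positivity) (by linarith)
    refine ⟨?_, e3.2.2.2.2⟩
    have e8 : 13 / 100 * dl η (n + 1) ≤ R (n + 1) t := by
      rw [hcn] at e5
      nlinarith
    have e9 := e3.2.2.2.2
    nlinarith) h4.le (by rw [h3]; linarith)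
  rw [h3] at h5
  have h6 : x (n + 2) b' ≤ 1 := (le_abs_self _).trans ((x_le_R hch _ hb0).trans (R_le hch _ hb0))
  have h7 : (1 : ℝ) < Real.exp (lm (n + 1) * (Real.pi / 2 + dl η (n + 1) - Real.pi / 2
      - 3 / 4 * dl η (n + 1))) := by
    rw [← Real.exp_zero]
    apply Real.exp_lt_exp.2
    have := hch.nm.lm1 (n + 1)
    have e : lm (n + 1) * (Real.pi / 2 + dl η (n + 1) - Real.pi / 2 - 3 / 4 * dl η (n + 1)) =
      lm (n + 1) * dl η (n + 1) / 4 := by ring
    rw [e]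
    positivity
  linarith

lemma Rsum (h : Ch η lm L C ℓ B T x R V) (n : ℕ) {t : ℝ} (ht : t ∈ Ico 0 T) :
    R 0 t ^ 2 = ∑ i ∈ Finset.range n, x i t ^ 2 + R n t ^ 2 := by
  induction n with
  | zero => simp
  | succ n ih =>
    rw [ih, Finset.sum_range_succ, h.Rsq n t ht]
    ring

lemma dlsum (η : ℝ) (m : ℕ) : ∑ i ∈ Finset.range m, dl η (i + 1) ^ 2 =
    η ^ 2 / 15 * (1 - 1 / 16 ^ m) := by
  induction m with
  | zero => simp
  | succ m ih =>
    rw [Finset.sum_range_succ, ih]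
    unfold dl
    have e : (16 : ℝ) ^ m = 4 ^ m * 4 ^ m := by
      rw [← mul_pow]
      norm_num
    rw [pow_succ (16 : ℝ), pow_succ (4 : ℝ), e]
    field_simp
    ring

lemma dlsum_le (η : ℝ) (m : ℕ) : ∑ i ∈ Finset.range m, dl η (i + 1) ^ 2 ≤ η ^ 2 / 15 := by
  rw [dlsum]
  have : (0 : ℝ) < 1 / 16 ^ m := by positivity
  nlinarith [sq_nonneg η]

/-- The start of the stage `n + 1`. -/
lemma step (h : Al η lm L C ℓ B T x R V) {n : ℕ} (hA : ∀ k ≤ n, Inv η lm L T x R s k)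
    (hb0 : s (n + 1) ∈ Ico 0 T) (hb : Th L R (n + 1) (s (n + 1)) = cn η (n + 1)) :
    Inv η lm L T x R s (n + 1) := by
  have hch := h.ch
  have hI := hA n le_rfl
  have hs := hI.mem
  have hd := hch.nm.d0 (n + 1)
  have hd1 := hch.nm.d1 (n + 1)
  have hd2 := hch.nm.d0 (n + 2)
  have hpi := Real.pi_gt_d2
  have hD := D_pos hch n
  have hcn : cn η n = dl η (n + 1) / 1000 := rfl
  have hcn2 : cn η (n + 1) = dl η (n + 2) / 1000 := rfl
  -- the clock `n + 1` is small at the time `s n`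
  have hsm : Th L R (n + 1) (s n) ≤ cn η (n + 1) / 100 := by
    refine th_small h n hs ?_ (inv_old h hA hs (by linarith)) (by rw [hI.th, hcn]; linarith)
    have := inv_time h hI
    linarith [hch.nm.lm1 0]
  have hlt : s n ≤ s (n + 1) := by
    by_contra hcon
    push Not at hcon
    have := th_mono hch (n + 1) hb0 hs hcon.le
    rw [hb] at this
    linarith
  have hbI : s (n + 1) ∈ Ico (s n) T := ⟨hlt, hb0.2⟩
  have hup := no_late h hA hbI hb.le
  have hst := stage h hA hbI hup hb.le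
  have hold := inv_old h hA hb0 (by linarith [hst.2.1])
  have hleft := inv_left h hA hbI (by linarith [hst.2.1])
  have hlo : Real.pi / 2 - dl η (n + 1) ≤ Th L R n (s (n + 1)) := by
    by_contra hcon
    push Not at hcon
    have := th_small h n hb0 hst.1.time hold hcon.le
    rw [hb] at this
    linarith
  -- the old mode
  have hcos : |Real.cos (Th L R n (s (n + 1)))| ≤ dl η (n + 1) := by
    have e1 : Real.cos (Th L R n (s (n + 1))) =
        Real.sin (Real.pi / 2 - Th L R n (s (n + 1))) := (Real.sin_pi_div_two_sub _).symm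
    rw [e1]
    refine (Real.abs_sin_le_abs (x := Real.pi / 2 - Th L R n (s (n + 1)))).trans ?_
    rw [abs_le]
    constructor <;> linarith
  have hxn1 : |x n (s n)| ≤ 1 := (x_le_R hch n hs).trans (R_le hch n hs)
  have hxn : |x n (s (n + 1))| ≤ 2 * dl η (n + 1) := by
    have e1 := hst.2.2.1
    have e2 : |x n (s n) * Real.cos (Th L R n (s (n + 1)))| ≤ dl η (n + 1) := by
      rw [abs_mul]
      have := mul_le_mul hxn1 hcos (abs_nonneg _) zero_le_one
      linarith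
    have e3 : |x n (s (n + 1))| ≤ |x n (s (n + 1)) - x n (s n) * Real.cos (Th L R n (s (n + 1)))|
        + |x n (s n) * Real.cos (Th L R n (s (n + 1)))| := by
      have := abs_add_le (x n (s (n + 1)) - x n (s n) * Real.cos (Th L R n (s (n + 1))))
        (x n (s n) * Real.cos (Th L R n (s (n + 1))))
      simpa using this
    rw [hcn] at e1
    linarith
  -- the new mode
  have hbig : 95 / 100 ≤ x (n + 1) (s (n + 1)) := by
    have e1 := h.enl n _ hb0 hst.1
    have e2 := Rsum hch (n + 1) hb0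
    have e3 : ∑ i ∈ Finset.range (n + 1), x i (s (n + 1)) ^ 2 ≤
        ∑ i ∈ Finset.range (n + 1), 9 * dl η (i + 1) ^ 2 := by
      apply Finset.sum_le_sum
      intro i hi
      have hi' : i < n + 1 := Finset.mem_range.1 hi
      have e4 : |x i (s (n + 1))| ≤ 3 * dl η (i + 1) := by
        rcases Nat.lt_succ_iff_lt_or_eq.1 hi' with h5 | h5
        · exact hleft i h5
        · subst h5
          linarith
      have e5 : x i (s (n + 1)) ^ 2 = |x i (s (n + 1))| ^ 2 := (sq_abs _).symm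
      rw [e5]
      nlinarith [abs_nonneg (x i (s (n + 1)))]
    rw [← Finset.mul_sum] at e3
    have e6 := dlsum_le η (n + 1)
    have e7 := hch.sq.η1
    have e8 := hch.sq.η0
    have e9 : (1 : ℝ) - 1 / 1000 ≤ R (n + 1) (s (n + 1)) ^ 2 := by nlinarith
    have e10 := hch.R0 (n + 1) _ hb0
    have e11 : (99 / 100 : ℝ) ≤ R (n + 1) (s (n + 1)) := by nlinarith
    have e12 := hst.2.2.2.2
    nlinarith
  -- the next mode
  have hnx : cn η (n + 1) / 4 ≤ x (n + 2) (s (n + 1)) := by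
    obtain ⟨a, ha, h4⟩ := th_ivt hch n (c := 1) hs hb0 hlt
      (by rw [hI.th, hcn]; linarith) (by linarith)
    have ha0 : a ∈ Ico 0 T := ⟨hs.1.trans ha.1, ha.2.trans_lt hb0.2⟩
    have e0 := h.next n a (s (n + 1)) ha0.1 ha.2 hb0.2 hst.1 (by
      have := hst.2.1
      have e2 : 1 / (dl η (n + 1) * L n) = D η L n := rfl
      rw [e2]
      linarith [ha.1]) (by
      intro t ht
      have ht0 : t ∈ Ico 0 T := ⟨ha0.1.trans ht.1, ht.2.trans_lt hb0.2⟩
      have e1 : Th L R n t ≤ Real.pi / 2 + dl η (n + 1) :=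
        (th_mono hch n ht0 hb0 ht.2).trans hup
      have e2 : 1 ≤ Th L R n t := by
        rw [← h4]
        exact th_mono hch n ha0 ht0 ht.1
      have e3 := stage h hA (b := t) ⟨ha.1.trans ht.1, ht0.2⟩ e1
        ((th_mono hch (n + 1) ht0 hb0 ht.2).trans hb.le)
      have e4 := sin_ge2 hd hd1 e2 e1
      have e5 := (abs_le.1 e3.2.2.2.1).1
      have e6 := hI.big
      have e7 : 95 / 100 * (63 / 100) ≤ x n (s n) * Real.sin (Th L R n t) :=
        mul_le_mul e6 e4 (by positivity) (by linarith)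
      have e8 : 59 / 100 ≤ R (n + 1) t := by
        rw [hcn] at e5
        nlinarith
      have e9 := e3.2.2.2.2
      nlinarith)
    have h5 : Th L R (n + 1) a ≤ cn η (n + 1) / 100 := by
      refine th_small h n ha0 ?_ (fun i hi => (th_mono hch i ha0 hb0 ha.2).trans (hold i hi))
        (by rw [h4]; linarith)
      have e1 := hst.1.time
      have e2 := L_pos hch 0
      nlinarith [ha.2]
    have h6 : Real.exp (-(lm (n + 2) / 4)) ≤ cn η (n + 1) / 100 := by
      have e1 := hch.nm.Qexp (n + 2) 2 (-(1 / 4)) 0 (by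
        have := hch.nm.d1 (n + 2)
        push_cast
        linarith)
      have e2 := hch.nm.Q1 (n + 2)
      have e3 := hch.nm.Qd (n + 2) (n + 2) (by omega)
      rw [div_le_iff₀ hd2] at e3
      set q := Q η lm (n + 2)
      have e4 : Real.exp (-(lm (n + 2) / 4)) = Real.exp (-(1 / 4) * lm (n + 2)) := by
        congr 1
        ring
      rw [e4]
      set E := Real.exp (-(1 / 4) * lm (n + 2))
      have e5 : q ^ 2 * E ≤ 1 := by simpa using e1
      have e6 : 0 < E := Real.exp_pos _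
      have e7 : 0 < q := by linarith
      have e8 : E ≤ 1 / q ^ 2 := by
        rw [le_div_iff₀ (by positivity)]
        linarith
      refine e8.trans ?_
      rw [div_le_iff₀ (by positivity), hcn2]
      have e9 : dl η (n + 2) / 1000 / 100 * q ^ 2 = (q * dl η (n + 2)) * q / 100000 := by ring
      rw [e9]
      nlinarith
    rw [hb] at e0
    have h7 : 0 < cn η (n + 1) := by rw [hcn2]; positivity
    linarith
  refine ⟨hb0, hb, hbig, hnx, hI.s0, ?_, ?_⟩
  · intro k hk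
    rcases Nat.of_le_succ hk with h5 | h5
    · have e1 := hI.le k h5
      have e2 := hst.2.1
      have e3 := D_succ hch n
      exact ⟨e1.1.trans hlt, by linarith⟩
    · subst h5
      exact ⟨le_rfl, by linarith⟩
  · intro i hi
    rcases Nat.lt_succ_iff_lt_or_eq.1 hi with h5 | h5
    · exact hI.old i h5
    · subst h5
      exact ⟨hup, hxn⟩

lemma base0 (h : Al η lm L C ℓ B T x R V) {t : ℝ} (ht : t ∈ Ico 0 T) (h1 : Th L R 0 t ≤ cn η 0) :
    His η lm L R 0 t := by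
  have hch := h.ch
  have h2 := h.base t ht h1
  have hd := hch.nm.d0 1
  have hd1 := hch.nm.d1 1
  have hpi := Real.pi_gt_d2
  have hlm := hch.nm.lm1 0
  have hcn : cn η 0 = dl η 1 / 1000 := rfl
  have h3 : L 0 * t ≤ 3 * lm 0 := by linarith [h2.1]
  refine ⟨h3, ?_, ?_⟩
  · intro i hi
    obtain rfl : i = 0 := by omega
    rw [hcn] at h1
    linarith
  · have h4 := th_small h 0 ht h3 (fun i hi => absurd hi (Nat.not_lt_zero i))
      (by rw [hcn] at h1; simp only [zero_add]; linarith)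
    have h5 : cn η (0 + 1) = dl η 2 / 1000 := rfl
    have h6 := hch.nm.d1 2
    rw [h5] at h4
    linarith

lemma inv0 (h : Al η lm L C ℓ B T x R V) (hb0 : s 0 ∈ Ico 0 T) (hb : Th L R 0 (s 0) = cn η 0) :
    Inv η lm L T x R s 0 := by
  have h1 := h.base (s 0) hb0 hb.le
  refine ⟨hb0, hb, h1.2.1, h1.2.2 hb, h1.1, ?_, fun i hi => absurd hi (Nat.not_lt_zero i)⟩
  intro k hk
  obtain rfl : k = 0 := by omega
  exact ⟨le_rfl, by linarith⟩

/-- The whole history. -/
lemma hist (h : Al η lm L C ℓ B T x R V) {n : ℕ} (hA : ∀ k ≤ n, Inv η lm L T x R s k) {t : ℝ}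
    (ht : t ∈ Ico 0 T) (h1 : Th L R (n + 1) t ≤ cn η (n + 1)) :
    ∃ k ≤ n, His η lm L R k t := by
  induction n with
  | zero =>
    refine ⟨0, le_rfl, ?_⟩
    rcases le_total (s 0) t with h2 | h2
    · exact (stage h hA ⟨h2, ht.2⟩ (no_late h hA ⟨h2, ht.2⟩ h1) h1).1
    · refine base0 h ht ?_
      rw [← (hA 0 le_rfl).th]
      exact th_mono h.ch 0 ht (hA 0 le_rfl).mem h2
  | succ n ih =>
    rcases le_total (s (n + 1)) t with h2 | h2
    · exact ⟨n + 1, le_rfl, (stage h hA ⟨h2, ht.2⟩ (no_late h hA ⟨h2, ht.2⟩ h1) h1).1⟩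
    · have h3 : Th L R (n + 1) t ≤ cn η (n + 1) := by
        rw [← (hA (n + 1) le_rfl).th]
        exact th_mono h.ch (n + 1) ht (hA (n + 1) le_rfl).mem h2
      obtain ⟨k, hk, h4⟩ := ih (fun k hk => hA k (by omega)) h3
      exact ⟨k, by omega, h4⟩

lemma L_geo (h : Ch η lm L C ℓ B T x R V) (n : ℕ) : (2 : ℝ) ^ n ≤ L n := by
  induction n with
  | zero => simpa using h.nm.L1 0
  | succ n ih =>
    have h1 := h.nm.Ls n
    have h2 := h.nm.d0 (n + 1)
    have h3 := h.nm.d1 (n + 1)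
    have h4 := L_pos h (n + 1)
    have h5 : dl η (n + 1) * L (n + 1) ≤ L (n + 1) := by nlinarith
    rw [pow_succ]
    linarith

/-- The alternatives for a chain. -/
theorem main (h : Al η lm L C ℓ B T x R V) :
    T ≤ 3 * lm 0 ∧ (∀ t ∈ Ico 0 T, 1 - η ≤ R 0 t ^ 2) ∧
    ((∀ n, (∃ t ∈ Ico 0 T, 9 / 10 ≤ x n t) ∧
        ∃ s ∈ Ico 0 T, ∀ t ∈ Ico s T, |x n t| ≤ dl η n) ∨
      ∃ n₀, ∀ t ∈ Ico 0 T, ∀ m, n₀ ≤ m → |x m t| ≤ Real.exp (-(lm (m - 1) / 200))) := by
  classical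
  have hch := h.ch
  have hL0 := hch.nm.L1 0
  have hη0 := hch.sq.η0
  have hη1 := hch.sq.η1
  -- consequences of the history
  have hfin : (∀ t ∈ Ico 0 T, ∃ k, His η lm L R k t) →
      T ≤ 3 * lm 0 ∧ ∀ t ∈ Ico 0 T, 1 - η ≤ R 0 t ^ 2 := by
    intro hh
    constructor
    · by_contra hcon
      push Not at hcon
      have hlm := hch.nm.lm1 0
      obtain ⟨t, ht1, ht2⟩ := exists_between hcon
      obtain ⟨k, hk⟩ := hh t ⟨by linarith, ht2⟩
      have := hk.time
      nlinarith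
    · intro t ht
      obtain ⟨k, hk⟩ := hh t ht
      have := h.enl k t ht hk
      nlinarith
  have hfar : ∀ n, (∀ t ∈ Ico 0 T, ∃ k ≤ n, His η lm L R k t) →
      ∃ n₀, ∀ t ∈ Ico 0 T, ∀ m, n₀ ≤ m → |x m t| ≤ Real.exp (-(lm (m - 1) / 200)) := by
    intro n hh
    refine ⟨n + 3, fun t ht m hm => ?_⟩
    obtain ⟨k, hk, h1⟩ := hh t ht
    obtain ⟨m', rfl⟩ : ∃ m', m = m' + 1 := ⟨m - 1, by omega⟩
    have h2 := (h.far k t ht h1 m' (by omega)).1
    have h3 := x_le_R hch (m' + 1) ht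
    rw [Nat.add_sub_cancel]
    refine h3.trans (h2.trans (Real.exp_le_exp.2 ?_))
    linarith [hch.nm.lm1 m']
  by_cases hall : ∀ n, ∃ t ∈ Ico 0 T, Th L R n t = cn η n
  · choose s hs1 hs2 using hall
    have hA : ∀ n, ∀ k ≤ n, Inv η lm L T x R s k := by
      intro n
      induction n with
      | zero =>
        intro k hk
        obtain rfl : k = 0 := by omega
        exact inv0 h (hs1 0) (hs2 0)
      | succ n ih =>
        intro k hk
        rcases Nat.of_le_succ hk with h5 | h5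
        · exact ih k h5
        · subst h5
          exact step h ih (hs1 _) (hs2 _)
    have hI : ∀ n, Inv η lm L T x R s n := fun n => hA n n le_rfl
    -- `T` is the supremum
    have hsup : ∀ t ∈ Ico 0 T, ∃ n, t ≤ s n := by
      intro t ht
      by_contra hcon
      push Not at hcon
      obtain ⟨M, hM⟩ := hch.bdd t ht.2
      obtain ⟨n, hn⟩ := pow_unbounded_of_one_lt (2 * |M|) (by norm_num : (1 : ℝ) < 2)
      have h1 := hM (s n) ⟨(hs1 n).1, (hcon n).le⟩ n
      have h2 := (hI n).big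
      have h3 := L_geo hch n
      have h4 := hch.nm.L1 n
      have h5 : L n ≤ L n ^ 10 := by
        calc L n = L n ^ 1 := (pow_one _).symm
          _ ≤ L n ^ 10 := pow_le_pow_right₀ h4 (by norm_num)
      have h6 : 95 / 100 ≤ |x n (s n)| := h2.trans (le_abs_self _)
      have h7 : L n * (95 / 100) ≤ L n ^ 10 * |x n (s n)| :=
        mul_le_mul h5 h6 (by norm_num) (by positivity)
      have h8 := le_abs_self M
      have h9 := abs_nonneg M
      linarith
    have hmono : ∀ k n, k ≤ n → s k ≤ s n := fun k n hkn => ((hI n).le k hkn).1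
    have hup : ∀ k t, t ∈ Ico 0 T → t ≤ s k + D η L k := by
      intro k t ht
      obtain ⟨n, hn⟩ := hsup t ht
      rcases le_total k n with h1 | h1
      · have h2 := ((hI n).le k h1).2
        have h3 := D_pos hch n
        linarith
      · have h2 := hmono n k h1
        have h3 := D_pos hch k
        linarith
    have hhist : ∀ t ∈ Ico 0 T, ∃ k, His η lm L R k t := by
      intro t ht
      obtain ⟨n, hn⟩ := hsup t ht
      have h1 : Th L R (n + 1) t ≤ cn η (n + 1) := by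
        rw [← hs2 (n + 1)]
        exact th_mono hch (n + 1) ht (hs1 _) (hn.trans (hmono n (n + 1) (by omega)))
      obtain ⟨k, -, h2⟩ := hist h (hA n) ht h1
      exact ⟨k, h2⟩
    obtain ⟨hT, hE⟩ := hfin hhist
    refine ⟨hT, hE, Or.inl fun n => ⟨⟨s n, hs1 n, by linarith [(hI n).big]⟩,
      s (n + 1), hs1 (n + 1), fun t ht => ?_⟩⟩
    have h1 := inv_left h (hA (n + 1)) ht (hup (n + 1) t ⟨(hs1 (n + 1)).1.trans ht.1, ht.2⟩) n
      (by omega)
    have h2 : dl η (n + 1) = dl η n / 4 := hch.nm.ds n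
    have h3 := hch.nm.d0 n
    rw [h2] at h1
    linarith
  · push Not at hall
    set n := Nat.find hall with hn
    have hno : ∀ t ∈ Ico 0 T, Th L R n t ≠ cn η n := Nat.find_spec hall
    have hyes : ∀ k, k < n → ∃ t ∈ Ico 0 T, Th L R k t = cn η k := by
      intro k hk
      have := Nat.find_min hall hk
      push Not at this
      exact this
    have hlt : ∀ t ∈ Ico 0 T, Th L R n t ≤ cn η n := by
      intro t ht
      by_contra hcon
      push Not at hcon
      have h0 : (0 : ℝ) ∈ Ico 0 T := ⟨le_rfl, hch.hT⟩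
      obtain ⟨t', ht', h1⟩ := th_ivt hch n (c := cn η n) h0 ht ht.1 (by
        rw [th_zero]
        have := hch.nm.d0 (n + 1)
        unfold cn
        positivity) hcon.le
      exact hno t' ⟨ht'.1, ht'.2.trans_lt ht.2⟩ h1
    have hex : ∃ s : ℕ → ℝ, ∀ k < n, s k ∈ Ico 0 T ∧ Th L R k (s k) = cn η k := by
      refine ⟨fun k => if hk : k < n then (hyes k hk).choose else 0, fun k hk => ?_⟩
      simp only [hk, dif_pos]
      exact (hyes k hk).choose_spec
    obtain ⟨s, hs⟩ := hex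
    have hcase : ∃ m, ∀ t ∈ Ico 0 T, ∃ k ≤ m, His η lm L R k t := by
      rcases Nat.eq_zero_or_pos n with h0 | h0
      · refine ⟨0, fun t ht => ⟨0, le_rfl, base0 h ht ?_⟩⟩
        have := hlt t ht
        rwa [h0] at this
      · obtain ⟨m, hm⟩ : ∃ m, n = m + 1 := ⟨n - 1, by omega⟩
        have hA : ∀ j ≤ m, ∀ k ≤ j, Inv η lm L T x R s k := by
          intro j
          induction j with
          | zero =>
            intro _ k hk
            obtain rfl : k = 0 := by omega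
            exact inv0 h (hs 0 (by omega)).1 (hs 0 (by omega)).2
          | succ j ih =>
            intro hj k hk
            rcases Nat.of_le_succ hk with h5 | h5
            · exact ih (by omega) k h5
            · subst h5
              exact step h (ih (by omega)) (hs _ (by omega)).1 (hs _ (by omega)).2
        refine ⟨m, fun t ht => hist h (hA m le_rfl) ht ?_⟩
        have := hlt t ht
        rwa [hm] at this
    obtain ⟨m, hm⟩ := hcase
    obtain ⟨hT, hE⟩ := hfin fun t ht => by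
      obtain ⟨k, -, hk⟩ := hm t ht
      exact ⟨k, hk⟩
    exact ⟨hT, hE, Or.inr (hfar m hm)⟩

end

end Pool.Agent.Y303.EJ.Od

namespace Pool.Agent.Y303.EJ

open Pool.Agent.Y5 (E3 Y Pr)
open Pool.Agent.Y5.D (Ix qd vf3 Init)
open Pool.Agent.Y6.N (Rot lin src ph XSol TSol)

theorem t_ODEE (hnum : S_NUM) (hch : S_CH) (hgrow : S_GROW) (hgz : S_GZ) (hlip : S_LIP)
    (hupa : S_UPA) (hfar : S_FAR) (hneg : S_NEG) (hlow : S_LOW) (hrot : S_ROT) (hstg : S_STG)
    (henl : S_ENL) (hnext : S_NEXT) (hbase : S_BASE) : S_ODEE := by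
  intro η lm L C ℓ B hsq
  have hnm := hnum η lm L C ℓ B hsq
  refine ⟨ph lm, fun n => Pool.Agent.Y6.N.ph_pos lm n, 3 * lm 0, ?_, ?_⟩
  · have := hnm.lm1 0
    linarith
  · intro T x f hT hx hb hen hf h0 hn
    have hc := hch η lm L C ℓ B T x f hsq hnm hT hx hb hen hf h0 hn
    have g1 := hgrow _ _ _ _ _ _ _ _ _ _ hc
    have g2 := hgz _ _ _ _ _ _ _ _ _ _ hc
    have g3 := hlip _ _ _ _ _ _ _ _ _ _ hc
    have g4 := hupa _ _ _ _ _ _ _ _ _ _ hc g1
    have g5 := hfar _ _ _ _ _ _ _ _ _ _ hc g4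
    have g6 := hneg _ _ _ _ _ _ _ _ _ _ hc g5
    have g7 := hlow _ _ _ _ _ _ _ _ _ _ hc g5 g6
    have g8 := hrot _ _ _ _ _ _ _ _ _ _ hc g5
    have g9 := hstg _ _ _ _ _ _ _ _ _ _ hc g2 g4 g5 g8
    have g10 := henl _ _ _ _ _ _ _ _ _ _ hc g5
    have g11 := hnext _ _ _ _ _ _ _ _ _ _ hc g5 g6
    have g12 := hbase _ _ _ _ _ _ _ _ _ _ hc g2 g4 g5 g6 g10
    have h := Od.main ⟨hc, g4, g5, g7, g9, g10, g11, g12, g3⟩
    refine ⟨h.1, ?_, h.2.2⟩
    intro t ht
    have h1 := h.2.1 t ht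
    have hY : 0 ≤ Y x 0 t := tsum_nonneg fun j => sq_nonneg _
    rw [Real.sq_sqrt hY] at h1
    simpa [Y] using h1

end Pool.Agent.Y303.EJ
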