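import Pool.Agent.Y303.EJ.Main
import Pool.Agent.Y303.EJ.Ode
import Pool.Agent.Y303.SK.All
import Pool.Agent.Y44.EJ.Num
import Pool.Agent.Y255.EJ.Cha
import Pool.Agent.Y888.EJ.Grow
import Pool.Agent.Y815.EJ.Upa
import Pool.Agent.Y888.EJ.Neg
import Pool.Agent.Y574.EJ.Low
import Pool.Agent.Y21.EJ.Rot
import Pool.Agent.Y297.EJ.Stg
import Pool.Agent.Y812.EJ.Enl
import Pool.Agent.Y25.EJ.Next
import Pool.Agent.Y273.EJ.Base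
import Pool.Agent.Y987.EJ.Lim
import Pool.Agent.Y812.EJ.PB
import Pool.Agent.Y523.EJ.Pers
import Pool.Agent.Y44.EJ.Par
import Pool.Agent.Y686.EJ.MME
import Pool.Agent.Y419.EJ.Int
import Pool.Agent.Y419.EJ.Derb
import Pool.Agent.Y487.EJ.Conc
import Pool.Agent.Y936.EJ.RF
import Pool.Agent.Y907.EJ.End

/-! Project EJ: everything together. -/

set_option autoImplicit false

namespace Pool.Agent.Y303.EJ

theorem t_ODEE' : S_ODEE :=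
  t_ODEE Pool.Agent.Y44.EJ.t_NUM Pool.Agent.Y255.EJ.t_CH Pool.Agent.Y888.EJ.t_GROW
    Pool.Agent.Y888.EJ.t_GZ Pool.Agent.Y888.EJ.t_LIP Pool.Agent.Y815.EJ.t_UPA
    Pool.Agent.Y815.EJ.t_FAR Pool.Agent.Y888.EJ.t_NEG Pool.Agent.Y574.EJ.t_LOW
    Pool.Agent.Y21.EJ.t_ROT Pool.Agent.Y297.EJ.t_STG Pool.Agent.Y812.EJ.t_ENL
    Pool.Agent.Y25.EJ.t_NEXT Pool.Agent.Y273.EJ.t_BASE

theorem t_BLOWE : S_BLOWE :=
  t_BLOWE_of Pool.Agent.Y421.SK.t_GAL3 Pool.Agent.Y878.SK.t_BOOT3 Pool.Agent.Y987.EJ.t_LIME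
    Pool.Agent.Y523.EJ.t_PERSE Pool.Agent.Y523.EJ.t_LOCE t_ODEE' Pool.Agent.Y812.EJ.t_PBE

theorem t_INTE : S_INTE :=
  Pool.Agent.Y419.EJ.t_INTE Pool.Agent.Y686.EJ.t_MME Pool.Agent.Y317.SK.t_FORM

theorem t_CONCE : S_CONCE :=
  Pool.Agent.Y487.EJ.t_CONCE Pool.Agent.Y686.EJ.t_MME t_INTE Pool.Agent.Y317.SK.t_FORM
    Pool.Agent.Y232.SK.t_HDY

theorem t_CORE : S_CORE :=
  t_CORE_of t_BLOWE Pool.Agent.Y448.SK.t_PK Pool.Agent.Y44.EJ.t_PARE Pool.Agent.Y303.SK.t_BAS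
    Pool.Agent.Y317.SK.t_FORM Pool.Agent.Y686.EJ.t_MME t_INTE Pool.Agent.Y419.EJ.t_DERBE t_CONCE
    Pool.Agent.Y427.SK.t_SER Pool.Agent.Y500.SK.t_ENER Pool.Agent.Y936.EJ.t_WC

theorem t_END' : S_END :=
  Pool.Agent.Y907.EJ.t_END Pool.Agent.Y936.EJ.t_RF Pool.Agent.Y936.EJ.t_WC

theorem t_MAINE : S_MAINE := t_MAINE_of t_CORE t_END'

end Pool.Agent.Y303.EJ
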