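import Pool.Agent.Y303.EJ.Stm
import Pool.Agent.Y303.SK.Blow
import Pool.Agent.Y6.N.Blow

/-! Project EJ: blow-up for the full system of the modes (assembly; adapted from `SK.Blow`). -/

open Set Filter Topology MeasureTheory

set_option autoImplicit false

namespace Pool.Agent.Y303.EJ.Bw

open Pool.Agent.Y5.D (Ix qd vf3 Init)
open Pool.Agent.Y6.N
open Pool.Agent.Y6.K (Kz lv)
open Pool.Agent.Y6.N.Bl (fin_lv fsupp summ en_main abs_le_one pf PBd xsol Good Good.mono good_zero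
  pow_exp)
open Pool.Agent.Y303.SK

section

variable {J : Type} {g o : J → ℕ} {σ : J → J} {τ : J → ℝ} {η : ℝ} {lm L C ℓ ρ φ β S : ℕ → ℝ}
  {B : ℕ → ℕ → ℝ} {R E : Ix J → ℝ} {D : Ix J → Ix J → ℝ} {c : Ix J → Ix J → Ix J → ℝ} {Θ : ℝ}

lemma dl_pos (h : SeqE η lm L C ℓ B) (n : ℕ) : 0 < dl η n := by
  have := h.η0
  unfold dl
  positivity

lemma dl_le (h : SeqE η lm L C ℓ B) (n : ℕ) : dl η n ≤ 1 := by
  have h1 := h.η0
  have h2 := h.η1
  have h3 : (1 : ℝ) ≤ 4 ^ n := one_le_pow₀ (by norm_num)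
  unfold dl
  rw [div_le_one (by positivity)]
  linarith

lemma lm_big' (h : SeqE η lm L C ℓ B) (n : ℕ) : 10 ^ 30 ≤ lm n := by
  have h1 := h.lm_big n
  have h2 := dl_pos h n
  have h3 := dl_le h n
  have h4 : dl η n ^ 4 ≤ 1 := pow_le_one₀ h2.le h3
  have h5 : 0 < dl η n ^ 4 := by positivity
  have h6 : 0 < lm n := by
    by_contra hcon
    push Not at hcon
    have : dl η n ^ 4 * lm n ≤ 0 := mul_nonpos_of_nonneg_of_nonpos h5.le hcon
    linarith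
  nlinarith

lemma L_one (h : SeqE η lm L C ℓ B) (n : ℕ) : 1 ≤ L n := by
  induction n with
  | zero => exact h.L0
  | succ n ih =>
    have h1 := h.lm_succ n
    have h2 := lm_big' h (n + 1)
    nlinarith

lemma L_step (h : SeqE η lm L C ℓ B) (n : ℕ) : 10 ^ 30 * L n ≤ L (n + 1) := by
  rw [← h.lm_succ n]
  exact mul_le_mul_of_nonneg_right (lm_big' h _) (le_trans zero_le_one (L_one h n))

lemma L_mono (h : SeqE η lm L C ℓ B) : Monotone L := by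
  refine monotone_nat_of_le_succ fun n => ?_
  have h1 := L_step h n
  have h2 := L_one h n
  linarith

lemma L_geo (h : SeqE η lm L C ℓ B) (n : ℕ) : (2 : ℝ) ^ n ≤ L n := by
  induction n with
  | zero => simpa using h.L0
  | succ n ih =>
    have h1 := L_step h n
    have h2 := L_one h n
    rw [pow_succ]
    linarith

lemma L_inv_sum (h : SeqE η lm L C ℓ B) : Summable (fun n => (L n)⁻¹) := by
  refine Summable.of_nonneg_of_le (fun n => (inv_pos.2 (lt_of_lt_of_le one_pos (L_one h n))).le)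
    (fun n => ?_) summable_geometric_two
  rw [one_div, inv_pow]
  exact inv_anti₀ (by positivity) (L_geo h n)

lemma apriori (hq : SeqE η lm L C ℓ B) (R : Rot o σ τ) {n : ℕ} {z : Ix J → ℝ → ℝ}
    (h : TSol Θ S o σ τ D c n z) {θ : ℝ} (hθ : θ ≤ Θ) (k : ℕ) :
    ∃ X, ∀ m, ∀ t ∈ Icc 0 θ, L m ^ k * |z (Sum.inl m) t| ≤ X := by
  refine ⟨L n ^ k, fun m t ht => ?_⟩
  have h0 : 0 ≤ L m := le_trans zero_le_one (L_one hq m)
  have h0' : 0 ≤ L n := le_trans zero_le_one (L_one hq n)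
  rcases le_or_gt m n with hm | hm
  · have h1 := abs_le_one (summ R h t) (h.energy t ⟨ht.1, ht.2.trans hθ⟩) (Sum.inl m)
    calc L m ^ k * |z (Sum.inl m) t| ≤ L n ^ k * 1 :=
          mul_le_mul (pow_le_pow_left₀ h0 (L_mono hq hm) k) h1 (abs_nonneg _) (pow_nonneg h0' _)
      _ = L n ^ k := mul_one _
  · rw [h.zero (Sum.inl m) hm t, abs_zero, mul_zero]
    exact pow_nonneg h0' _

lemma goodPers (hPERS : S_PERSE) (hq : SeqE η lm L C ℓ B) (hφ0 : ∀ n, 0 < φ n)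
    (hφ : ∀ k : ℕ, ∃ X, ∀ n, L n ^ k * φ n ≤ X) (R : Rot o σ τ) (hp : PBd g L C ℓ B D c φ β)
    {Z : ℕ → Ix J → ℝ → ℝ} (hZ : ∀ n, TSol Θ S o σ τ D c n (Z n))
    (hb : ∀ n j, ∀ t ∈ Icc (0 : ℝ) Θ, |Z n (Sum.inr j) t| ≤ β (g j))
    {U : Ultrafilter ℕ} {θ : ℝ} (h : Good Θ L U Z θ) (k : ℕ) :
    ∃ Y, ∀ᶠ n in (U : Filter ℕ), ∀ t ∈ Icc 0 θ, ∀ m, L m ^ k * |Z n (Sum.inl m) t| ≤ Y := by
  obtain ⟨h0, h1, X, hX⟩ := h
  obtain ⟨Y, hY⟩ := hPERS η lm L C ℓ B φ hq hφ0 hφ Θ k X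
  refine ⟨Y, hX.mono fun n hn t ht m => ?_⟩
  exact hY θ _ _ h0 h1 (xsol R hp (hZ n) (hb n) le_rfl h1) (hZ n).init.1 (hZ n).init.2.1
    (fun m t ht => hn t ht m) (apriori hq R (hZ n) h1 k) m t ht

lemma goodLim (hPERS : S_PERSE) (hq : SeqE η lm L C ℓ B) (hφ0 : ∀ n, 0 < φ n)
    (hφ : ∀ k : ℕ, ∃ X, ∀ n, L n ^ k * φ n ≤ X) (R : Rot o σ τ) (hp : PBd g L C ℓ B D c φ β)
    {Z : ℕ → Ix J → ℝ → ℝ} (hZ : ∀ n, TSol Θ S o σ τ D c n (Z n))
    (hb : ∀ n j, ∀ t ∈ Icc (0 : ℝ) Θ, |Z n (Sum.inr j) t| ≤ β (g j))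
    {U : Ultrafilter ℕ} {z : Ix J → ℝ → ℝ} {θ : ℝ} (h : Good Θ L U Z θ)
    (hl : ∀ i, ∀ t ∈ Icc (0 : ℝ) Θ, Tendsto (fun n => Z n i t) U (𝓝 (z i t))) (k : ℕ) :
    ∃ Y, ∀ m, ∀ t ∈ Icc 0 θ, L m ^ k * |z (Sum.inl m) t| ≤ Y := by
  obtain ⟨Y, hY⟩ := goodPers hPERS hq hφ0 hφ R hp hZ hb h k
  refine ⟨Y, fun m t ht => ?_⟩
  have h2 := hl (Sum.inl m) t ⟨ht.1, ht.2.trans h.2.1⟩
  have h3 : Tendsto (fun n => L m ^ k * |Z n (Sum.inl m) t|) U
      (𝓝 (L m ^ k * |z (Sum.inl m) t|)) := h2.abs.const_mul _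
  exact le_of_tendsto h3 (hY.mono fun n hn => hn t ht m)

/-- absolute summability of the modes -/
lemma abs_sum (hq : SeqE η lm L C ℓ B) (hs : Summable (fun j => β (g j))) {z : Ix J → ℝ} {X : ℝ}
    (h1 : ∀ m, L m * |z (Sum.inl m)| ≤ X) (h2 : ∀ j, |z (Sum.inr j)| ≤ β (g j)) :
    Summable (fun a => |z a|) := by
  have h3 : Summable ((fun a => |z a|) ∘ Sum.inl) := by
    refine Summable.of_nonneg_of_le (fun n => abs_nonneg _) (fun n => ?_)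
      ((L_inv_sum hq).mul_left X)
    have hL : 0 < L n := lt_of_lt_of_le one_pos (L_one hq n)
    rw [← div_eq_mul_inv, le_div_iff₀ hL, mul_comm]
    exact h1 n
  have h4 : Summable ((fun a => |z a|) ∘ Sum.inr) :=
    Summable.of_nonneg_of_le (fun j => abs_nonneg _) (fun j => h2 j) hs
  exact (HasSum.sum h3.hasSum h4.hasSum).summable

/-- the limit solves the perturbed main system on the intervals of good times -/
lemma xsol_lim' {g' : J → ℕ} (K : KD g L C ℓ ρ B R E D c) (hq : SeqE η lm L C ℓ B)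
    (hs : Summable (fun j => β (g' j)))
    (hp : PBd g' L C ℓ B D c φ β) {z : Ix J → ℝ → ℝ}
    (hen : ∀ t ∈ Icc (0 : ℝ) Θ, Summable (fun a => z a t ^ 2) ∧ ∑' a, z a t ^ 2 ≤ 1)
    (hb : ∀ j, ∀ t ∈ Icc (0 : ℝ) Θ, |z (Sum.inr j) t| ≤ β (g' j)) {θ : ℝ} (h1 : θ ≤ Θ)
    (hder : ∀ i, ∀ t ∈ Icc 0 θ, HasDerivWithinAt (z i)
        (Kz S o σ τ (fun a => z a t) i - lin D (fun a => z a t) i + qd c (fun a => z a t) i)
        (Icc 0 θ) t)
    (hX : ∃ X, ∀ m, ∀ t ∈ Icc 0 θ, L m ^ 1 * |z (Sum.inl m) t| ≤ X) :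
    XSol L C ℓ B φ 0 θ (fun m => z (Sum.inl m)) (pf L C ℓ B D c z) := by
  obtain ⟨X, hX⟩ := hX
  have hsub : Icc 0 θ ⊆ Icc 0 Θ := Icc_subset_Icc le_rfl h1
  refine ⟨fun m => Or.inr fun t ht => ?_, fun m t ht => ?_,
    fun t ht => en_main (hen t (hsub ht)).1 (hen t (hsub ht)).2⟩
  · refine (hder (Sum.inl m) t ht).congr_deriv ?_
    simp only [Kz, pf]
    ring
  · refine hp _ (hen t (hsub ht)).1 (hen t (hsub ht)).2 (fun j => hb j t (hsub ht)) m ?_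
    have h2 : Summable (fun a => |z a t|) := by
      refine abs_sum (z := fun a => z a t) hq hs (X := X) (fun m => ?_)
        (fun j => hb j t (hsub ht))
      have := hX m t ht
      rwa [pow_one] at this
    exact c_sum' K h2 _

/-- extension of the interval of good times -/
lemma goodExtend (hPERS : S_PERSE) (hq : SeqE η lm L C ℓ B) (hφ0 : ∀ n, 0 < φ n)
    (hφ : ∀ k : ℕ, ∃ X, ∀ n, L n ^ k * φ n ≤ X) (R : Rot o σ τ) (hp : PBd g L C ℓ B D c φ β)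
    {Z : ℕ → Ix J → ℝ → ℝ} (hZ : ∀ n, TSol Θ S o σ τ D c n (Z n))
    (hb : ∀ n j, ∀ t ∈ Icc (0 : ℝ) Θ, |Z n (Sum.inr j) t| ≤ β (g j))
    {U : Ultrafilter ℕ} {z : Ix J → ℝ → ℝ}
    (hl : ∀ i, ∀ t ∈ Icc (0 : ℝ) Θ, Tendsto (fun n => Z n i t) U (𝓝 (z i t)))
    {X δ Y : ℝ} (hX : 0 ≤ X)
    (hloc : ∀ (a b : ℝ) (x f : ℕ → ℝ → ℝ), a ≤ b → b ≤ a + δ → XSol L C ℓ B φ a b x f →
      (∃ N : ℕ, ∀ n, N < n → ∀ t ∈ Icc a b, x n t = 0) → (∀ n, L n ^ 3 * |x n a| ≤ X + 1) →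
      ∀ n, ∀ t ∈ Icc a b, L n ^ 2 * |x n t| ≤ Y) (hδ : 0 < δ) {θ : ℝ} (h : Good Θ L U Z θ)
    (hθ : ∀ m, L m ^ 3 * |z (Sum.inl m) θ| ≤ X) : Good Θ L U Z (min (θ + δ) Θ) := by
  obtain ⟨Y4, hY4⟩ := goodPers hPERS hq hφ0 hφ R hp hZ hb h 4
  obtain ⟨h0, h1, X2, hX2⟩ := h
  have hθΘ : θ ∈ Icc (0 : ℝ) Θ := ⟨h0, h1⟩
  have hpos : ∀ m, 0 < L m := fun m => lt_of_lt_of_le one_pos (L_one hq m)
  obtain ⟨n₀, hn₀⟩ : ∃ n₀ : ℕ, Y4 ≤ (2 : ℝ) ^ n₀ := by
    obtain ⟨n, hn⟩ := pow_unbounded_of_one_lt Y4 (by norm_num : (1 : ℝ) < 2)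
    exact ⟨n, hn.le⟩
  have h2 : ∀ m, n₀ ≤ m → Y4 ≤ L m := fun m hm =>
    hn₀.trans ((pow_le_pow_right₀ (by norm_num) hm).trans (L_geo hq m))
  have h3 : ∀ᶠ n in (U : Filter ℕ), ∀ m ∈ Finset.range n₀,
      L m ^ 3 * |Z n (Sum.inl m) θ| ≤ X + 1 := by
    rw [Finset.eventually_all]
    intro m _
    have h4 : Tendsto (fun n => L m ^ 3 * |Z n (Sum.inl m) θ|) U
        (𝓝 (L m ^ 3 * |z (Sum.inl m) θ|)) := (hl (Sum.inl m) θ hθΘ).abs.const_mul _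
    have h5 : L m ^ 3 * |z (Sum.inl m) θ| < X + 1 := lt_of_le_of_lt (hθ m) (by linarith)
    exact (h4.eventually (gt_mem_nhds h5)).mono fun n hn => hn.le
  refine ⟨le_min (by linarith) (h0.trans h1), min_le_right _ _, max X2 Y, ?_⟩
  filter_upwards [hX2, h3, hY4] with n hn1 hn2 hn3 t ht m
  rcases le_total t θ with htθ | htθ
  · exact (hn1 t ⟨ht.1, htθ⟩ m).trans (le_max_left _ _)
  · have h7 : ∀ m, L m ^ 3 * |Z n (Sum.inl m) θ| ≤ X + 1 := by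
      intro m
      rcases lt_or_ge m n₀ with hm | hm
      · exact hn2 m (Finset.mem_range.2 hm)
      · have h8 := hn3 θ ⟨h0, le_rfl⟩ m
        have h9 : L m * (L m ^ 3 * |Z n (Sum.inl m) θ|) ≤ L m * 1 := by
          calc L m * (L m ^ 3 * |Z n (Sum.inl m) θ|) = L m ^ 4 * |Z n (Sum.inl m) θ| := by ring
            _ ≤ Y4 := h8
            _ ≤ L m * 1 := by rw [mul_one]; exact h2 m hm
        have h10 := le_of_mul_le_mul_left h9 (hpos m)
        linarith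
    have hcs2 := xsol R hp (hZ n) (hb n) h0 (min_le_right (θ + δ) Θ) (a := θ)
    have h11 := hloc θ (min (θ + δ) Θ) _ _ (le_min (by linarith) h1) (min_le_left _ _) hcs2
      ⟨n, fun m hm t _ => (hZ n).zero (Sum.inl m) hm t⟩ h7 m t ⟨htθ, ht.2⟩
    exact h11.trans (le_max_right _ _)

end

end Pool.Agent.Y303.EJ.Bw

namespace Pool.Agent.Y303.EJ

open Pool.Agent.Y5.D (Ix qd vf3 Init)
open Pool.Agent.Y6.N
open Pool.Agent.Y6.K (Kz lv)
open Pool.Agent.Y6.N.Bl (fin_lv fsupp summ en_main abs_le_one pf PBd xsol Good Good.mono good_zero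
  pow_exp)
open Pool.Agent.Y303.SK
open Bw

theorem t_BLOWE_of (hGAL : S_GAL3) (hBOOT : S_BOOT3) (hLIM : S_LIME) (hPERS : S_PERSE)
    (hLOC : S_LOCE) (hODE : S_ODEE) (hPB : S_PBE) : S_BLOWE := by
  intro J g₀ o σ τ η lm L C ℓ ρ B R E D c β₁ K hq Rt hβ₁
  obtain ⟨φ₁, hφ₁, T₁, hT₁, hode⟩ := hODE η lm L C ℓ B hq
  have hpos : ∀ m, 0 < L m := fun m => lt_of_lt_of_le one_pos (L_one hq m)
  set φ : ℕ → ℝ := fun n => min (φ₁ n) (Real.exp (-L n)) with hφdef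
  have hφ0 : ∀ n, 0 < φ n := fun n => lt_min (hφ₁ n) (Real.exp_pos _)
  have hφ : ∀ k : ℕ, ∃ X, ∀ n, L n ^ k * φ n ≤ X := fun k =>
    ⟨k.factorial, fun n => (mul_le_mul_of_nonneg_left (min_le_right _ _)
      (pow_pos (hpos n) k).le).trans (pow_exp k (hpos n).le)⟩
  obtain ⟨β₂, hβ₂, hs₂, hpb⟩ := hPB J g₀ o σ τ η lm L C ℓ ρ φ B R E D c K hq Rt hφ0
  -- an injective numbering of the other modes
  have hcount : Countable J := countable_of_rot Rt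
  obtain ⟨g, hg⟩ := exists_injective_nat J
  set βJ : J → ℝ := fun j => min (β₂ j) (β₁ j) with hβJ
  obtain ⟨β, hβdef⟩ : ∃ β : ℕ → ℝ, ∀ j, β (g j) = βJ j := by
    refine ⟨Function.extend g βJ 0, fun j => ?_⟩
    exact hg.extend_apply _ _ _
  have hβ0 : ∀ j, 0 < β (g j) := fun j => by rw [hβdef]; exact lt_min (hβ₂ j) (hβ₁ j)
  have hβ2 : ∀ j, β (g j) ≤ β₂ j := fun j => by rw [hβdef]; exact min_le_left _ _
  have hβ1 : ∀ j, β (g j) ≤ β₁ j := fun j => by rw [hβdef]; exact min_le_right _ _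
  have hs : Summable (fun j => β (g j)) :=
    Summable.of_nonneg_of_le (fun j => (hβ0 _).le) (fun j => hβ2 _) hs₂
  have hp : PBd g L C ℓ B D c φ β := fun z hz1 hz2 hz3 n hn =>
    hpb z hz1 hz2 (fun j => (hz3 j).trans (hβ2 _)) n hn
  set Θ : ℝ := T₁ + 1 with hΘ
  have hΘ0 : 0 < Θ := by linarith
  obtain ⟨S, hS1, hS⟩ := hBOOT J g₀ o σ τ L C ℓ ρ B R E D c Θ (fun j => β (g j)) K Rt hΘ0 hβ0
  have hDpos : ∀ (s : Finset (Ix J)) (z : Ix J → ℝ),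
      0 ≤ ∑ a ∈ s, ∑ b ∈ s, D a b * z a * z b := by
    intro s z
    refine le_trans (Finset.sum_nonneg fun a _ => ?_) (K.coer s z)
    refine mul_nonneg ?_ (sq_nonneg _)
    rcases a with n | w
    · exact K.ρ0 n
    · exact le_rfl
  choose Z hZ using hGAL J o σ τ D c Θ S Rt hDpos K.anti hΘ0
  have hb : ∀ n j, ∀ t ∈ Icc (0 : ℝ) Θ, |Z n (Sum.inr j) t| ≤ β (g j) :=
    fun n j t ht => hS n (Z n) (hZ n) j t ht
  set U : Ultrafilter ℕ := Filter.hyperfilter ℕ with hU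
  obtain ⟨z, hl, hinit, hen, hbz, hder⟩ := hLIM J g₀ o σ τ η lm L C ℓ ρ B R E D c Θ S
    (fun j => β (g j)) K hq Rt hΘ0 (fun j => (hβ0 _).le) hs Z hZ hb U
    Nat.hyperfilter_le_atTop
  -- the equation on the intervals of good times
  have hgd : ∀ θ, Good Θ L U Z θ → ∀ i, ∀ t ∈ Icc 0 θ, HasDerivWithinAt (z i)
      (Kz S o σ τ (fun a => z a t) i - lin D (fun a => z a t) i + qd c (fun a => z a t) i)
      (Icc 0 θ) t := by
    intro θ hθ
    obtain ⟨Y, hY⟩ := goodPers hPERS hq hφ0 hφ Rt hp hZ hb hθ 1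
    refine hder θ hθ.1 hθ.2.1 ⟨Y, hY.mono fun n hn t ht m => ?_⟩
    have := hn t ht m
    rwa [pow_one] at this
  have hglim : ∀ θ, Good Θ L U Z θ → ∀ k : ℕ, ∃ Y, ∀ m, ∀ t ∈ Icc 0 θ,
      L m ^ k * |z (Sum.inl m) t| ≤ Y := fun θ hθ k =>
    goodLim hPERS hq hφ0 hφ Rt hp hZ hb hθ hl k
  have hgx : ∀ θ, Good Θ L U Z θ →
      XSol L C ℓ B φ 0 θ (fun m => z (Sum.inl m)) (pf L C ℓ B D c z) := fun θ hθ =>
    xsol_lim' K hq hs hp hen hbz hθ.2.1 (hgd θ hθ) (hglim θ hθ 1)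
  -- the good times are at most `T₁`
  have hle1 : ∀ θ, Good Θ L U Z θ → θ ≤ T₁ := by
    intro θ hθ
    rcases hθ.1.eq_or_lt with h0 | h0
    · rw [← h0]; exact hT₁.le
    have hx := hgx θ hθ
    refine (hode θ (fun m => z (Sum.inl m)) (pf L C ℓ B D c z) h0 ?_ ?_ ?_ ?_ hinit.1
      hinit.2.1).1
    · intro n t ht
      have h1 := (hgd θ hθ (Sum.inl n) t ⟨ht.1, ht.2.le⟩).mono Ico_subset_Icc_self
      refine h1.congr_deriv ?_
      simp only [Kz, pf]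
      ring
    · intro T' hT'
      obtain ⟨Y, hY⟩ := hglim θ hθ 10
      exact ⟨Y, fun t ht n => hY n t ⟨ht.1, ht.2.trans hT'.le⟩⟩
    · exact fun t ht => (hx.en t ⟨ht.1, ht.2.le⟩).2
    · intro n t ht
      refine (hx.pert n t ⟨ht.1, ht.2.le⟩).trans ?_
      exact add_le_add (mul_le_mul_of_nonneg_right (min_le_left _ _) (abs_nonneg _))
        (min_le_left _ _)
  have hG0 : Good Θ L U Z 0 := good_zero hΘ0.le fun n => (hZ n).init
  set G : Set ℝ := {θ | Good Θ L U Z θ} with hG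
  have hbdd : BddAbove G := ⟨T₁, fun θ hθ => hle1 θ hθ⟩
  set T := sSup G with hT
  have hTle : T ≤ T₁ := csSup_le ⟨0, hG0⟩ fun θ hθ => hle1 θ hθ
  have hlt : ∀ θ, 0 ≤ θ → θ < T → Good Θ L U Z θ := by
    intro θ h0 h1
    obtain ⟨θ', h2, h3⟩ := exists_lt_of_lt_csSup ⟨0, hG0⟩ h1
    exact Good.mono h2 h0 h3.le
  have hTpos : 0 < T := by
    obtain ⟨δ, Y, hδ, hloc⟩ := hLOC η lm L C ℓ B φ hq hφ0 hφ (L 0 ^ 3 + 1)
    have h1 : Good Θ L U Z (min (0 + δ) Θ) := by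
      refine goodExtend hPERS hq hφ0 hφ Rt hp hZ hb hl (pow_pos (hpos 0) 3).le hloc hδ hG0
        fun m => ?_
      rcases m with _ | m
      · rw [hinit.1]; simp
      · rw [hinit.2.1]; simpa using (pow_pos (hpos 0) 3).le
    have h2 : 0 < min (0 + δ) Θ := lt_min (by linarith) hΘ0
    exact lt_of_lt_of_le h2 (le_csSup hbdd h1)
  have hsub : Ico 0 T ⊆ Icc (0 : ℝ) Θ := fun t ht => ⟨ht.1, by linarith [ht.2]⟩
  -- the limit is a regular solution on `[0, T)`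
  have hdT : ∀ i, ∀ t ∈ Ico 0 T, HasDerivWithinAt (z i)
      (Kz S o σ τ (fun a => z a t) i - lin D (fun a => z a t) i + qd c (fun a => z a t) i)
      (Ico 0 T) t := by
    intro i t ht
    obtain ⟨θ, h1, h2⟩ := exists_between ht.2
    have h3 := hgd θ (hlt θ (ht.1.trans h1.le) h2) i t ⟨ht.1, h1.le⟩
    refine h3.mono_of_mem_nhdsWithin ?_
    refine mem_nhdsWithin.2 ⟨Iio θ, isOpen_Iio, h1, ?_⟩
    rintro s ⟨hs1, hs2⟩
    exact ⟨hs2.1, le_of_lt hs1⟩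
  have hreg : ∀ k : ℕ, ∀ T' < T, ∃ X, ∀ t ∈ Icc 0 T', ∀ n,
      L n ^ k * |z (Sum.inl n) t| ≤ X := by
    intro k T' hT'
    rcases lt_or_ge T' 0 with h0 | h0
    · exact ⟨0, fun t ht => absurd (ht.1.trans ht.2) (not_le.2 h0)⟩
    · obtain ⟨Y, hY⟩ := hglim T' (hlt T' h0 hT') k
      exact ⟨Y, fun t ht n => hY n t ht⟩
  -- the main modes are unbounded
  have hunb : ∀ X : ℝ, ∃ t ∈ Ico 0 T, ∃ n, X < L n ^ 2 * |z (Sum.inl n) t| := by
    intro X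
    by_contra hcon
    push Not at hcon
    obtain ⟨Y, hY⟩ := hPERS η lm L C ℓ B φ hq hφ0 hφ Θ 3 X
    have h1 : ∀ t ∈ Ico 0 T, ∀ n, L n ^ 3 * |z (Sum.inl n) t| ≤ |Y| := by
      intro t ht n
      have hg := hlt t ht.1 ht.2
      exact (hY t _ _ ht.1 hg.2.1 (hgx t hg) hinit.1 hinit.2.1
        (fun m s hs' => hcon s ⟨hs'.1, hs'.2.trans_lt ht.2⟩ m)
        ((hglim t hg 3).imp fun X' hX' m s hs' => hX' m s hs') n t ⟨ht.1, le_rfl⟩).trans
        (le_abs_self _)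
    obtain ⟨δ, Y', hδ, hloc⟩ := hLOC η lm L C ℓ B φ hq hφ0 hφ (|Y| + 1)
    set θ := max 0 (T - δ / 2) with hθ
    have hθ0 : 0 ≤ θ := le_max_left _ _
    have hθT : θ < T := max_lt hTpos (by linarith)
    have h2 := goodExtend hPERS hq hφ0 hφ Rt hp hZ hb hl (abs_nonneg Y) hloc hδ
      (hlt θ hθ0 hθT) (h1 θ ⟨hθ0, hθT⟩)
    have h3 : min (θ + δ) Θ ≤ T := le_csSup hbdd h2
    have h4 : T < min (θ + δ) Θ := by
      refine lt_min ?_ (by linarith)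
      have := le_max_right 0 (T - δ / 2)
      linarith
    linarith
  have hx : ∀ t ∈ Ico 0 T, XSol L C ℓ B φ 0 t (fun m => z (Sum.inl m)) (pf L C ℓ B D c z) :=
    fun t ht => hgx t (hlt t ht.1 ht.2)
  have hO := hode T (fun m => z (Sum.inl m)) (pf L C ℓ B D c z) hTpos (fun n t ht => by
      refine (hdT (Sum.inl n) t ht).congr_deriv ?_
      simp only [Kz, pf]
      ring) (fun T' hT' => by
      obtain ⟨X, hX⟩ := hreg 10 T' hT'
      exact ⟨X, fun t ht n => hX t ht n⟩)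
    (fun t ht => ((hx t ht).en t ⟨ht.1, le_rfl⟩).2) (fun n t ht => by
      refine ((hx t ht).pert n t ⟨ht.1, le_rfl⟩).trans ?_
      exact add_le_add (mul_le_mul_of_nonneg_right (min_le_left _ _) (abs_nonneg _))
        (min_le_left _ _)) hinit.1 hinit.2.1
  have henl : ∀ t ∈ Ico 0 T, 1 - η ≤ ∑' a, z a t ^ 2 := by
    intro t ht
    refine (hO.2.1 t ht).trans ?_
    exact tsum_comp_le_tsum_of_inj (hen t (hsub ht)).1 (fun a => sq_nonneg _) Sum.inl_injective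
  have hfirst : ∀ n, (∃ t ∈ Ico 0 T, 9 / 10 ≤ z (Sum.inl n) t) ∧
      ∃ s ∈ Ico 0 T, ∀ t ∈ Ico s T, |z (Sum.inl n) t| ≤ dl η n := by
    rcases hO.2.2 with h | ⟨n₀, h⟩
    · exact h
    · exfalso
      obtain ⟨t, ht, n, hn⟩ := hunb (1 + L (n₀ + 1) ^ 2)
      have h1 : |z (Sum.inl n) t| ≤ 1 :=
        abs_le_one (hen t (hsub ht)).1 (hen t (hsub ht)).2 (Sum.inl n)
      rcases le_or_gt n (n₀ + 1) with hnn | hnn
      · have h2 : L n ^ 2 * |z (Sum.inl n) t| ≤ L (n₀ + 1) ^ 2 * 1 :=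
          mul_le_mul (pow_le_pow_left₀ (hpos n).le (L_mono hq hnn) 2) h1 (abs_nonneg _)
            (pow_pos (hpos _) 2).le
        linarith
      · have h2 := h t ht n (by omega)
        obtain ⟨m, rfl⟩ : ∃ m, n = m + 1 := ⟨n - 1, by omega⟩
        rw [Nat.add_sub_cancel] at h2
        have h10 : (0 : ℝ) ≤ lm m := le_trans (by norm_num) (lm_big' hq m)
        have h3 : L (m + 1) ^ 2 ≤ Real.exp (lm m / 10 ^ 6) := by
          have h4 := hq.exp_big m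
          have h5 : L (m + 1) ≤ L (m + 5) / dl η (m + 5) := by
            have h6 := L_mono hq (show m + 1 ≤ m + 5 by omega)
            have h7 := dl_pos hq (m + 5)
            have h7' := dl_le hq (m + 5)
            have h8 := hpos (m + 5)
            rw [le_div_iff₀ h7]
            nlinarith [hpos (m + 1)]
          have h9 : 1 ≤ L (m + 5) / dl η (m + 5) := (L_one hq (m + 1)).trans h5
          calc L (m + 1) ^ 2 ≤ (L (m + 5) / dl η (m + 5)) ^ 2 :=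
                pow_le_pow_left₀ (hpos _).le h5 2
            _ ≤ (L (m + 5) / dl η (m + 5)) ^ 10 := pow_le_pow_right₀ h9 (by norm_num)
            _ ≤ _ := h4
            _ ≤ Real.exp (lm m / 10 ^ 6) := by
              apply Real.exp_le_exp.2
              have h12 := dl_le hq m
              have h13 := dl_pos hq m
              have : dl η m * lm m ≤ 1 * lm m := mul_le_mul_of_nonneg_right h12 h10
              linarith
        have h11 : L (m + 1) ^ 2 * |z (Sum.inl (m + 1)) t| ≤ 1 := by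
          calc L (m + 1) ^ 2 * |z (Sum.inl (m + 1)) t|
              ≤ Real.exp (lm m / 10 ^ 6) * Real.exp (-(lm m / 200)) :=
                mul_le_mul h3 h2 (abs_nonneg _) (Real.exp_pos _).le
            _ = Real.exp (lm m / 10 ^ 6 + -(lm m / 200)) := (Real.exp_add _ _).symm
            _ ≤ 1 := by
                rw [Real.exp_le_one_iff]
                linarith
        have h12 := pow_pos (hpos (n₀ + 1)) 2
        linarith
  exact ⟨S, hS1, T, z, hTpos, ⟨hdT, hinit, hreg, fun t ht => hen t (hsub ht),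
    fun w t ht => (hbz w t (hsub ht)).trans (hβ1 _), fun n => (hfirst n).1, henl,
    fun n => (hfirst n).2⟩⟩

end Pool.Agent.Y303.EJ
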