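import Pool.Agent.Y303.SK.Stm
import Pool.Agent.Y6.N.P1

/-!
Project EJ: the Navier-Stokes equations with Dirichlet conditions in a bounded open set and an
additional skew-adjoint linear term: a Leray-Hopf solution which is smooth on `[0, T)` and loses
almost all its energy at the time `T`. Definitions.
-/

open Set Filter Topology MeasureTheory Metric

set_option autoImplicit false

namespace Pool.Agent.Y303.EJ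

open Pool.Agent.Y5 (E3 Y Pr)
open Pool.Agent.Y5.D (Ix qd vf3 Init)
open Pool.Agent.Y6.N (Rot lin src ph XSol TSol)
open Pool.Agent.Y6.K (Kz lv)
open Pool.Agent.Y303.SK

/-! ### The chain of the main modes -/

/-- accuracy of the stage `n` -/
noncomputable def dl (η : ℝ) (n : ℕ) : ℝ := η / 4 ^ n

/-- The stage `n` begins when the clock `Th n` is equal to `cn η n`. -/
noncomputable def cn (η : ℝ) (n : ℕ) : ℝ := dl η (n + 1) / 1000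

/-- Conditions on the parameters. -/
structure SeqE (η : ℝ) (lm L C ℓ : ℕ → ℝ) (B : ℕ → ℕ → ℝ) : Prop where
  η0 : 0 < η
  η1 : η ≤ 1 / 100
  L0 : 1 ≤ L 0
  lm_succ : ∀ n, lm (n + 1) * L n = L (n + 1)
  lm_big : ∀ n, 10 ^ 30 ≤ dl η n ^ 4 * lm n
  lm_grow : ∀ n : ℕ, 10 ^ 8 * lm n ≤ dl η (n + 1) ^ 4 * lm (n + 1)
  exp_big : ∀ n, (L (n + 5) / dl η (n + 5)) ^ 10 ≤ Real.exp (dl η n * lm n / 10 ^ 6)
  C_lo : ∀ n, Real.exp (-((Real.pi / 2 + dl η n / 1000) * lm n)) ≤ C n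
  C_hi : ∀ n, C n ≤ Real.exp (-((Real.pi / 2 - dl η n / 1000) * lm n))
  B_err : ∀ i n, i < n → |B i n - 1| ≤ Real.exp (-lm n)
  ℓ_nonneg : ∀ n, 0 ≤ ℓ n
  ℓ_zero : 10 ^ 6 * (ℓ 0 * lm 0) ≤ dl η 0 ^ 4 * L 0
  ℓ_succ : ∀ n, 10 ^ 6 * ℓ (n + 1) ≤ dl η (n + 1) ^ 4 * L n

/-- a quantity which is larger than all polynomial quantities -/
noncomputable def Q (η : ℝ) (lm : ℕ → ℝ) (n : ℕ) : ℝ := Real.exp (dl η n * lm n / 10 ^ 6)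

/-- a very small rate -/
noncomputable def e0 (lm : ℕ → ℝ) : ℝ := 2 * Real.exp (-(lm 0 / 2))

/-- Numerical consequences of `SeqE`. -/
structure Num (η : ℝ) (lm L C ℓ : ℕ → ℝ) : Prop where
  d0 : ∀ n, 0 < dl η n
  d1 : ∀ n, dl η n ≤ 1 / 100
  ds : ∀ n, dl η (n + 1) = dl η n / 4
  lm1 : ∀ n, 10 ^ 30 ≤ lm n
  lmd : ∀ n, 10 ^ 30 ≤ dl η n * lm n
  L1 : ∀ n, 1 ≤ L n
  Ls : ∀ n, 10 ^ 30 * L n ≤ dl η (n + 1) * L (n + 1)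
  Lmono : Monotone L
  Lsum : ∀ n, ∑ i ∈ Finset.range (n + 1), L i ≤ 101 / 100 * L n
  lmsum : ∀ n, 10 ^ 7 * ∑ i ∈ Finset.range (n + 1), lm i ≤ dl η (n + 1) * lm (n + 1)
  Q1 : ∀ n, 10 ^ 30 ≤ Q η lm n
  QL : ∀ n k, k ≤ n + 5 → L k ≤ Q η lm n
  Qlm : ∀ n k, k ≤ n + 5 → lm k ≤ Q η lm n
  Qd : ∀ n k, k ≤ n + 5 → 1 / dl η k ≤ Q η lm n
  Qexp : ∀ (n k : ℕ) (α β : ℝ), (k : ℝ) * dl η n / 10 ^ 6 + α ≤ β →
    Q η lm n ^ k * Real.exp (α * lm n) ≤ Real.exp (β * lm n)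
  C0 : ∀ n, 0 < C n
  C1 : ∀ n, C n ≤ Real.exp (-(3 / 2 * lm n))
  ph1 : ∀ n, ph lm (n + 1) ≤ Real.exp (-(10 ^ 6 * lm n))
  e1 : e0 lm * (L 0 + lm 0) ≤ 1 / 10 ^ 30
  ℓ1 : ∀ n, 10 ^ 6 * ℓ n ≤ dl η n ^ 3 * L n

/-- signed strain of the lower modes -/
noncomputable def Sg (L : ℕ → ℝ) (x : ℕ → ℝ → ℝ) (m : ℕ) (t : ℝ) : ℝ :=
  ∑ i ∈ Finset.range m, L i * x i t

/-- The clocks. -/
noncomputable def Th (L : ℕ → ℝ) (R : ℕ → ℝ → ℝ) (n : ℕ) (t : ℝ) : ℝ :=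
  Pr (fun s => L n * R (n + 1) s) t

/-- total exponent of growth due to the modes below `m` -/
noncomputable def Ex (L : ℕ → ℝ) (R : ℕ → ℝ → ℝ) (m : ℕ) (t : ℝ) : ℝ :=
  ∑ i ∈ Finset.range m, Pr (fun s => L i * R i s) t

/-- The chain: `x n` are the modes, `R n` is the square root of the energy of the modes `≥ n`,
`V n` is the dissipation in the modes `≥ n`. -/
structure Ch (η : ℝ) (lm L C ℓ : ℕ → ℝ) (B : ℕ → ℕ → ℝ) (T : ℝ) (x R V : ℕ → ℝ → ℝ) : Prop where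
  sq : SeqE η lm L C ℓ B
  nm : Num η lm L C ℓ
  hT : 0 < T
  cx : ∀ n, ContinuousOn (x n) (Ico 0 T)
  cR : ∀ n, ContinuousOn (R n) (Ico 0 T)
  R0 : ∀ n, ∀ t ∈ Ico 0 T, 0 ≤ R n t
  R1 : ∀ t ∈ Ico 0 T, R 0 t ≤ 1
  Rsq : ∀ n, ∀ t ∈ Ico 0 T, R n t ^ 2 = x n t ^ 2 + R (n + 1) t ^ 2
  V0 : ∀ n, ∀ t ∈ Ico 0 T, 0 ≤ V n t
  Vs : ∀ n, ∀ t ∈ Ico 0 T, V n t = ℓ n * x n t ^ 2 + V (n + 1) t
  Vb : ∀ n, ∀ t ∈ Ico 0 T, ∀ Z : ℕ → ℝ, (∀ j, ℓ (n + j) * x (n + j) t ^ 2 ≤ Z j) → Summable Z →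
    V n t ≤ ∑' j, Z j
  dR : ∀ n, ∀ t ∈ Ioo 0 T, ∃ D, HasDerivAt (fun s => R n s ^ 2) D t ∧
    |D - 2 * (Sg L x n t * R n t ^ 2 + src L C x n t * x n t - V n t)| ≤
      2 * e0 lm * R n t ^ 2 + 4 * ph lm n * R n t
  dx : ∀ n, ∀ t ∈ Ioo 0 T, ∃ v, HasDerivAt (x n) v t ∧
    |v - (Sg L x n t * x n t + src L C x n t - ℓ n * x n t - L n * R (n + 1) t ^ 2)| ≤
      e0 lm * |x n t| + C n * L n * |x n t| * R (n + 1) t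
        + Real.exp (-(lm (n + 1) / 2)) * R (n + 1) t ^ 2 + ph lm n
  h0 : x 0 0 = 1
  hn : ∀ n, R (n + 1) 0 = 0
  bdd : ∀ T' < T, ∃ M, ∀ t ∈ Icc 0 T', ∀ n, L n ^ 10 * |x n t| ≤ M

/-- Standard assumptions at the time `t` during the stage `n`. -/
structure His (η : ℝ) (lm L : ℕ → ℝ) (R : ℕ → ℝ → ℝ) (n : ℕ) (t : ℝ) : Prop where
  time : L 0 * t ≤ 3 * lm 0
  old : ∀ i ≤ n, Th L R i t ≤ 2
  next : Th L R (n + 1) t ≤ 1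

/-- Solutions of the full system on `[0, T)`, with the behaviour at `T`. -/
structure SolE {J : Type} (η : ℝ) (L : ℕ → ℝ) (o : J → ℕ) (σ : J → J) (τ : J → ℝ)
    (D : Ix J → Ix J → ℝ) (c : Ix J → Ix J → Ix J → ℝ) (β : J → ℝ) (S : ℕ → ℝ) (T : ℝ)
    (z : Ix J → ℝ → ℝ) : Prop where
  deriv : ∀ i, ∀ t ∈ Ico 0 T, HasDerivWithinAt (z i)
    (Kz S o σ τ (fun a => z a t) i - lin D (fun a => z a t) i + qd c (fun a => z a t) i)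
    (Ico 0 T) t
  init : Init z
  reg : ∀ k : ℕ, ∀ T' < T, ∃ X, ∀ t ∈ Icc 0 T', ∀ n, L n ^ k * |z (Sum.inl n) t| ≤ X
  en : ∀ t ∈ Ico 0 T, Summable (fun a => z a t ^ 2) ∧ ∑' a, z a t ^ 2 ≤ 1
  oth : ∀ w, ∀ t ∈ Ico 0 T, |z (Sum.inr w) t| ≤ β w
  big : ∀ n, ∃ t ∈ Ico 0 T, 9 / 10 ≤ z (Sum.inl n) t
  enl : ∀ t ∈ Ico 0 T, 1 - η ≤ ∑' a, z a t ^ 2
  left : ∀ n, ∃ s ∈ Ico 0 T, ∀ t ∈ Ico s T, |z (Sum.inl n) t| ≤ dl η n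

/-- Parameters: radii `r`, amplitudes `α`, `ε` (as `SK.Par`, with `SeqE`). -/
structure ParE (a κ h q' G δ η : ℝ) (r α ε lm L : ℕ → ℝ) : Prop where
  r0 : ∀ n, 0 < r n
  rstep : ∀ n, r (n + 1) ≤ q' * r n
  rδ : r 0 ≤ δ
  α0 : ∀ n, 0 < α n
  ε0 : ∀ n, 0 < ε n
  αε : ∀ n, α n ^ 2 + ε n ^ 2 = 1
  Lr : ∀ n, L n * (r n ^ 2 * √(r n)) = κ * a * α n
  εr : ∀ n, ε n ^ 2 * r n ^ 2 ≤ r (n + 1) ^ 2
  seq : ∀ ℓ : ℕ → ℝ, (∀ n, 0 ≤ ℓ n ∧ ℓ n * r n ^ 2 ≤ G) →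
    SeqE η lm L (fun n => ε n ^ 2 * (h / κ) * (L (n + 1) / L n)) ℓ
      (fun _ n => α n ^ 2 - ε n ^ 2 * (h / κ))
  Lpol : ∀ n, L (n + 1) ≤ L n ^ 2
  small : ∀ M : ℝ, ∃ n, M * (r n * √(r n)) < (8 / 1000) ^ n
  inf : Tendsto (fun n => (2 ^ n * r n ^ 2)⁻¹) atTop atTop

/-! ### Weak solutions -/

/-- Weak solutions (Leray-Hopf) on `[0, T]` of `∂ₜ u + (u · ∇) u + ∇p = ν Δ u + K u`, `div u = 0`
in `Ω`, `u = 0` on `∂Ω`, with the operator `K` given by `e`, `σ`, `s`. -/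
structure WeakD {ι : Type} (Ω : Set E3) (ν : ℝ) (e : ι → E3 → E3) (σ : ι → ι) (s : ι → ℝ)
    (T : ℝ) (u : ℝ → E3 → E3) : Prop where
  inH : ∀ t ∈ Icc 0 T, InH Ω (u t)
  cont : ∀ v, InH Ω v → ContinuousOn (fun t => ipr (u t) v) (Icc 0 T)
  diss : IntegrableOn (fun t => dirf (u t) (u t)) (Ioo 0 T) volume
  eqn : ∀ i, ∀ t ∈ Icc 0 T, ipr (u t) (e i) = ipr (u 0) (e i) +
    ∫ τ in (0 : ℝ)..t, (s i * ipr (u τ) (e (σ i)) - ν * dirf (u τ) (e i) - adv (u τ) (u τ) (e i))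
  energy : ∀ t ∈ Icc 0 T, ipr (u t) (u t) + 2 * ν * (∫ τ in (0 : ℝ)..t, dirf (u τ) (u τ)) ≤
    ipr (u 0) (u 0)

end Pool.Agent.Y303.EJ
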