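import Pool.Agent.Y303.EJ.Stm
import Pool.Agent.Y500.SK.Ener

/-!
Project EJ, second part: uniqueness of the Leray-Hopf solution (weak-strong uniqueness).
Definitions and statements.
-/

open Set Filter Topology MeasureTheory Metric

set_option autoImplicit false

namespace Pool.Agent.Y303.EJ

open Pool.Agent.Y5 (E3)
open Pool.Agent.Y303.SK
open Pool.Agent.Y500.SK (lap)

/-- the gradient of a differentiable field -/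
noncomputable def gr (u : E3 → E3) (x : E3) (i : Fin 3) : E3 := fderiv ℝ u x (cv i)

/-- `∫ G : ∇w` -/
noncomputable def gf (G : E3 → Fin 3 → E3) (w : E3 → E3) : ℝ :=
  ∫ x, ∑ i : Fin 3, inner ℝ (G x i) (fderiv ℝ w x (cv i))

/-- `∫ (∑ v_i G_i) · w` -/
noncomputable def av (v : E3 → E3) (G : E3 → Fin 3 → E3) (w : E3 → E3) : ℝ :=
  ∫ x, inner ℝ (∑ i : Fin 3, v x i • G x i) (w x)

/-- `∫ |G|²` -/
noncomputable def gg (G : E3 → Fin 3 → E3) : ℝ := ∫ x, ∑ i : Fin 3, ‖G x i‖ ^ 2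

/-- `v` belongs to the closure in `H¹` of the smooth compactly supported divergence-free fields
in `Ω`, and `G` is its gradient. -/
def H1w (Ω : Set E3) (v : E3 → E3) (G : E3 → Fin 3 → E3) : Prop :=
  MemLp v 2 volume ∧ (∀ i, MemLp (fun x => G x i) 2 volume) ∧ ∀ ε > 0, ∃ w, CS Ω w ∧
    ∫ x, ‖v x - w x‖ ^ 2 < ε ∧ ∫ x, ∑ i : Fin 3, ‖G x i - fderiv ℝ w x (cv i)‖ ^ 2 < ε

/-- Leray-Hopf solutions on `[0, T]` of `∂ₜ v + (v · ∇) v + ∇p = ν Δ v + K v`, `div v = 0` in `Ω`,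
`v = 0` on `∂Ω`, with the operator `K` given by `e`, `σ`, `s`; `G` is the gradient of `v`. -/
structure LH {ι : Type} (Ω : Set E3) (ν : ℝ) (e : ι → E3 → E3) (σ : ι → ι) (s : ι → ℝ)
    (T : ℝ) (v : ℝ → E3 → E3) (G : ℝ → E3 → Fin 3 → E3) : Prop where
  inH : ∀ t ∈ Icc 0 T, InH Ω (v t)
  cont : ∀ w, InH Ω w → ContinuousOn (fun t => ipr (v t) w) (Icc 0 T)
  grad : ∀ᵐ t ∂(volume.restrict (Ioo 0 T)), H1w Ω (v t) (G t)
  diss : IntegrableOn (fun t => gg (G t)) (Ioo 0 T) volume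
  int : ∀ i, IntegrableOn (fun τ => s i * ipr (v τ) (e (σ i)) - ν * gf (G τ) (e i) -
    av (v τ) (G τ) (e i)) (Ioo 0 T) volume
  eqn : ∀ i, ∀ t ∈ Icc 0 T, ipr (v t) (e i) = ipr (v 0) (e i) +
    ∫ τ in (0 : ℝ)..t, (s i * ipr (v τ) (e (σ i)) - ν * gf (G τ) (e i) - av (v τ) (G τ) (e i))
  energy : ∀ t ∈ Icc 0 T, ipr (v t) (v t) + 2 * ν * (∫ τ in (0 : ℝ)..t, gg (G τ)) ≤
    ipr (v 0) (v 0)

/-- The strong solution on `[0, T)`. -/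
structure Str {ι : Type} (Ω : Set E3) (ν : ℝ) (e : ι → E3 → E3) (σ : ι → ι) (s : ι → ℝ)
    (T : ℝ) (u : ℝ → E3 → E3) : Prop where
  co : Countable ι
  skew : SkewD Ω e σ s
  sol : SolD Ω ν e σ s T u
  smooth : ∀ t ∈ Ico 0 T, ContDiff ℝ (⊤ : ℕ∞) (u t)
  der : ∀ k : ℕ, ∀ T' < T, ∃ M, ∀ t ∈ Icc 0 T', ∀ x, ‖iteratedFDeriv ℝ k (u t) x‖ ≤ M
  en : ∀ t ∈ Ico 0 T, HasDerivWithinAt (fun τ => ipr (u τ) (u τ)) (-(2 * (ν * dirf (u t) (u t))))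
    (Ico 0 T) t
  cfk : ∀ k : ℕ, ∀ T' < T, ∃ b : ι → ℝ, Summable b ∧ ∀ t ∈ Icc 0 T', ∀ i,
    |ipr (u t) (e i)| * nk k (e i) ≤ b i
  cf : ∀ T' < T, ∃ b : ι → ℝ, Summable b ∧ ∀ t ∈ Icc 0 T', ∀ i, |ipr (u t) (e i)| ≤ b i
  rep : ∀ t ∈ Ico 0 T, u t = ser e (fun i => ipr (u t) (e i))

/-- the convective term -/
noncomputable def conv (u : E3 → E3) (x : E3) : E3 := fderiv ℝ u x (u x)

/-! ### Steps -/

/-- W1: the strong solution belongs to `H¹`. -/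
def S_W1 : Prop := ∀ (Ω : Set E3) (ν : ℝ) (ι : Type) (e : ι → E3 → E3) (σ : ι → ι)
  (s : ι → ℝ) (T : ℝ) (u : ℝ → E3 → E3), IsOpen Ω → Bornology.IsBounded Ω →
  Str Ω ν e σ s T u → ∀ t ∈ Ico 0 T, H1w Ω (u t) (gr (u t))

/-- W2: integration by parts. -/
def S_W2 : Prop := ∀ (Ω : Set E3) (v u : E3 → E3) (G : E3 → Fin 3 → E3), IsOpen Ω →
  Bornology.IsBounded Ω → H1w Ω v G → ContDiff ℝ 2 u → HasCompactSupport u →
  av v G u = -adv v u v ∧ gf G u = -ipr (lap u) v ∧ adv v u u = 0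

/-- The product of two absolutely continuous functions. -/
def S_PR : Prop := ∀ (t : ℝ) (z b y a : ℝ → ℝ), 0 ≤ t → IntervalIntegrable b volume 0 t →
  IntervalIntegrable a volume 0 t → (∀ r ∈ Icc 0 t, z r = z 0 + ∫ τ in (0 : ℝ)..r, b τ) →
  (∀ r ∈ Icc 0 t, y r = y 0 + ∫ τ in (0 : ℝ)..r, a τ) →
  IntervalIntegrable (fun τ => b τ * y τ + z τ * a τ) volume 0 t ∧
  z t * y t = z 0 * y 0 + ∫ τ in (0 : ℝ)..t, (b τ * y τ + z τ * a τ)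

/-- Gronwall. -/
def S_GR : Prop := ∀ (t K M : ℝ) (g : ℝ → ℝ), 0 ≤ t → 0 ≤ K → IntervalIntegrable g volume 0 t →
  (∀ τ ∈ Icc 0 t, 0 ≤ g τ ∧ g τ ≤ M) → (∀ τ ∈ Icc 0 t, g τ ≤ K * ∫ r in (0 : ℝ)..τ, g r) →
  ∀ τ ∈ Icc 0 t, g τ = 0

/-- W3: Parseval. -/
def S_W3 : Prop := ∀ (Ω : Set E3) (ι : Type) (e : ι → E3 → E3) (σ : ι → ι) (s : ι → ℝ),
  IsOpen Ω → Bornology.IsBounded Ω → Countable ι → SkewD Ω e σ s → ∀ g v : E3 → E3,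
  MemLp g 2 volume → InH Ω v → HasSum (fun i => ipr g (e i) * ipr v (e i)) (ipr g v) ∧
  ∀ F : Finset ι, |∑ i ∈ F, ipr g (e i) * ipr v (e i)| ≤ √(ipr g g) * √(ipr v v)

/-- W4: series. -/
def S_W4 : Prop := ∀ (Ω : Set E3), IsOpen Ω → Bornology.IsBounded Ω → ∃ X : ℝ, 0 ≤ X ∧
  ∀ (ι : Type) (e : ι → E3 → E3), Countable ι → (∀ a, CS Ω (e a)) →
  ∀ (v : E3 → E3) (G : E3 → Fin 3 → E3), MemLp v 2 volume →
  (∀ i, MemLp (fun x => G x i) 2 volume) →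
  (∀ a, |gf G (e a)| ≤ X * nk 1 (e a) * √(gg G) ∧
    |av v G (e a)| ≤ X * nk 0 (e a) * (√(ipr v v) * √(gg G))) ∧
  ∀ z : ι → ℝ, (∀ k : ℕ, Summable (fun a => |z a| * nk k (e a))) →
    HasSum (fun a => z a * gf G (e a)) (gf G (ser e z)) ∧
    HasSum (fun a => z a * av v G (e a)) (av v G (ser e z))

/-- W5: the product of the weak and of the strong solution. -/
def S_W5 : Prop := ∀ (Ω : Set E3) (ν : ℝ) (ι : Type) (e : ι → E3 → E3) (σ : ι → ι)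
  (s : ι → ℝ) (T T' : ℝ) (u v : ℝ → E3 → E3) (G : ℝ → E3 → Fin 3 → E3), IsOpen Ω →
  Bornology.IsBounded Ω → 0 < ν → Str Ω ν e σ s T u → 0 < T' → T' ≤ T →
  LH Ω ν e σ s T' v G → ∀ t ∈ Icc 0 T', t < T →
  IntervalIntegrable (fun τ => 2 * ν * gf (G τ) (u τ) + ipr (conv (u τ)) (v τ) +
    av (v τ) (G τ) (u τ)) volume 0 t ∧
  ipr (u t) (v t) = ipr (u 0) (v 0) - ∫ τ in (0 : ℝ)..t, (2 * ν * gf (G τ) (u τ) +
    ipr (conv (u τ)) (v τ) + av (v τ) (G τ) (u τ))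

/-- W6: the inequality at a fixed time. -/
def S_W6 : Prop := ∀ (Ω : Set E3) (v u : E3 → E3) (G : E3 → Fin 3 → E3) (ν K : ℝ), IsOpen Ω →
  Bornology.IsBounded Ω → 0 < ν → H1w Ω v G → ContDiff ℝ (⊤ : ℕ∞) u → (∀ x ∉ Ω, u x = 0) →
  (∀ x, dvg u x = 0) → (∀ x, ‖fderiv ℝ u x‖ ≤ K) →
  4 * ν * gf G u + 2 * ipr (conv u) v + 2 * av v G u ≤
    2 * ν * gg G + 2 * ν * dirf u u + 2 * K * ipr (fun x => v x - u x) (fun x => v x - u x)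

/-- W7: weak-strong uniqueness. -/
def S_W7 : Prop := ∀ (Ω : Set E3) (ν : ℝ) (ι : Type) (e : ι → E3 → E3) (σ : ι → ι)
  (s : ι → ℝ) (T T' : ℝ) (u v : ℝ → E3 → E3) (G : ℝ → E3 → Fin 3 → E3), IsOpen Ω →
  Bornology.IsBounded Ω → 0 < ν → Str Ω ν e σ s T u → 0 < T' → T' ≤ T →
  LH Ω ν e σ s T' v G → v 0 =ᵐ[volume] u 0 → ∀ t ∈ Icc 0 T', t < T → v t =ᵐ[volume] u t

end Pool.Agent.Y303.EJ
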