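import Pool.Agent.Y303.EJ.All
import Pool.Agent.Y303.EJ.W
import Pool.Agent.Y810.EJ.W1
import Pool.Agent.Y284.EJ.W7

/-!
Project EJ: the final theorem (with uniqueness in the class of the Leray-Hopf solutions).
-/

open Set Filter Topology MeasureTheory Metric

set_option autoImplicit false

namespace Pool.Agent.Y303.EJ

open Pool.Agent.Y5 (E3)
open Pool.Agent.Y303.SK
open Pool.Agent.Y936.EJ (toL toL_eq toL_inner mem_of_inH exists_basis EE Sp)

section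

variable {Ω : Set E3} {ν : ℝ} {ι : Type} {e : ι → E3 → E3} {σ : ι → ι} {s : ι → ℝ} {T : ℝ}

theorem ae_of_coef (h : SkewD Ω e σ s) {v w : E3 → E3} (hv : InH Ω v) (hw : InH Ω w)
    (hc : ∀ i, ipr v (e i) = ipr w (e i)) : v =ᵐ[volume] w := by
  obtain ⟨b, hb⟩ := exists_basis h
  have : CompleteSpace (Sp e).topologicalClosure :=
    (Submodule.isClosed_topologicalClosure _).completeSpace_coe
  set x : (Sp e).topologicalClosure := ⟨toL v, mem_of_inH h hv⟩ with hx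
  set y : (Sp e).topologicalClosure := ⟨toL w, mem_of_inH h hw⟩ with hy
  have he : ∀ i, MemLp (e i) 2 volume := fun i => Pool.Agent.Y500.SK.CS.memLp (h.field i)
  have hxi : ∀ i, (b.repr x) i = ipr v (e i) := by
    intro i
    rw [b.repr_apply_apply x i, ← toL_inner hv.1 (he i), real_inner_comm]
    change inner ℝ (toL v) ((b i : (Sp e).topologicalClosure) : Pool.Agent.Y936.EJ.L2) = _
    rw [hb i]
    rfl
  have hyi : ∀ i, (b.repr y) i = ipr w (e i) := by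
    intro i
    rw [b.repr_apply_apply y i, ← toL_inner hw.1 (he i), real_inner_comm]
    change inner ℝ (toL w) ((b i : (Sp e).topologicalClosure) : Pool.Agent.Y936.EJ.L2) = _
    rw [hb i]
    rfl
  have h1 : b.repr x = b.repr y := by
    ext i
    rw [hxi, hyi, hc]
  have h2 : x = y := b.repr.injective h1
  have h3 : toL v = toL w := congrArg Subtype.val h2
  rw [toL_eq hv.1, toL_eq hw.1] at h3
  exact (MemLp.toLp_eq_toLp_iff hv.1 hw.1).1 h3

theorem gf_gr (u w : E3 → E3) : gf (gr u) w = dirf u w := rfl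

theorem gg_gr (u : E3 → E3) : gg (gr u) = dirf u u := by
  unfold gg dirf gr
  refine integral_congr_ae (Eventually.of_forall fun x => ?_)
  exact Finset.sum_congr rfl fun i _ => (real_inner_self_eq_norm_sq _).symm

theorem lin_cv (A : E3 →L[ℝ] E3) (y : E3) : ∑ i : Fin 3, y i • A (cv i) = A y := by
  have h1 : y = ∑ i : Fin 3, y i • cv i := by
    ext j
    simp [cv, Pi.single_apply]
  conv_rhs => rw [h1]
  rw [map_sum]
  simp only [map_smul]

theorem av_gr (v u w : E3 → E3) : av v (gr u) w = adv v u w := by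
  unfold av adv gr
  refine integral_congr_ae (Eventually.of_forall fun x => ?_)
  simp only
  rw [lin_cv]

theorem core_str {η : ℝ} {i₀ : ι} {u : ℝ → E3 → E3} (C : Core Ω ν η e σ s i₀ T u) :
    Str Ω ν e σ s T u :=
  ⟨C.co, C.skew, C.sol, C.smooth, C.der, C.en, C.cfk, C.cf, C.rep⟩

/-- the solution of `S_END` is a Leray-Hopf solution -/
theorem lh_of_weak (hW1 : S_W1) (hΩ : IsOpen Ω) (hb : Bornology.IsBounded Ω) (hν : 0 < ν) {η : ℝ}
    {i₀ : ι} {u v : ℝ → E3 → E3} (C : Core Ω ν η e σ s i₀ T u)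
    (hv : ∀ t ∈ Ico 0 T, v t = u t) (hW : WeakD Ω ν e σ s T v) :
    LH Ω ν e σ s T v (fun t => gr (v t)) := by
  have hone : ipr (u 0) (u 0) = 1 := by
    rw [C.u0]
    exact (C.skew.orth i₀ i₀).1 rfl
  have hle := (Pool.Agent.Y907.EJ.mon_end (E := fun t => ipr (u t) (u t))
    (d := fun t => dirf (u t) (u t)) (c := 2 * ν) (η := η) C.hT (by positivity)
    (fun t ht => (C.en t ht).congr_deriv (by ring)) (fun t _ => dirf_nonneg _) hone C.enl).2.2.2
  have hint : ∀ i, IntegrableOn (fun τ => s i * ipr (u τ) (e (σ i)) - ν * dirf (u τ) (e i) -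
        adv (u τ) (u τ) (e i)) (Ioo 0 T) := by
    intro i
    obtain ⟨K, hK0, hK⟩ := Pool.Agent.Y907.EJ.coef_bd ν hb C.skew i
    obtain ⟨g, -, -, hg, -⟩ := Pool.Agent.Y907.EJ.lip_end hK0 (C.sol.eqn i) fun t ht =>
      hK (u t) ((C.smooth t ht).of_le two_le) (C.sol.zero t ht) (C.sol.dv t ht)
        (C.sol.inH t ht) (hle t ht)
    exact hg
  refine ⟨hW.inH, hW.cont, ?_, ?_, ?_, ?_, ?_⟩
  · refine (ae_restrict_iff' measurableSet_Ioo).2 (Eventually.of_forall fun t ht => ?_)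
    have ht' : t ∈ Ico 0 T := ⟨ht.1.le, ht.2⟩
    rw [hv t ht']
    exact hW1 Ω ν ι e σ s T u hΩ hb (core_str C) t ht'
  · refine hW.diss.congr_fun (fun t _ => ?_) measurableSet_Ioo
    exact (gg_gr _).symm
  · intro i
    refine (hint i).congr_fun (fun t ht => ?_) measurableSet_Ioo
    simp only [gf_gr, av_gr]
    rw [hv t ⟨ht.1.le, ht.2⟩]
  · intro i t ht
    simp only [gf_gr, av_gr]
    exact hW.eqn i t ht
  · intro t ht
    simp only [gg_gr]
    exact hW.energy t ht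

end

/-- The final theorem. -/
def S_FINE : Prop := ∀ (ν : ℝ) (Ω : Set E3) (η : ℝ), 0 < ν → IsOpen Ω →
  Bornology.IsBounded Ω → Ω.Nonempty → 0 < η → ∃ (ι : Type) (e : ι → E3 → E3) (σ : ι → ι)
    (s : ι → ℝ) (i₀ : ι) (T : ℝ) (u : ℝ → E3 → E3), SkewD Ω e σ s ∧ 0 < T ∧ u 0 = e i₀ ∧
    LH Ω ν e σ s T u (fun t => gr (u t)) ∧ SolD Ω ν e σ s T u ∧
    (∀ t ∈ Ico 0 T, ContDiff ℝ (⊤ : ℕ∞) (u t)) ∧
    (∀ k : ℕ, ∀ T' < T, ∃ M, ∀ t ∈ Icc 0 T', ∀ x, ‖iteratedFDeriv ℝ k (u t) x‖ ≤ M) ∧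
    (∀ t ∈ Ico 0 T, ipr (u t) (u t) + 2 * ν * (∫ τ in (0 : ℝ)..t, gg (gr (u τ))) =
      ipr (u 0) (u 0)) ∧
    (∀ (T' : ℝ) (v : ℝ → E3 → E3) (G : ℝ → E3 → Fin 3 → E3), 0 < T' → T' ≤ T →
      LH Ω ν e σ s T' v G → v 0 =ᵐ[volume] u 0 → ∀ t ∈ Icc 0 T', v t =ᵐ[volume] u t) ∧
    ∀ (v : ℝ → E3 → E3) (G : ℝ → E3 → Fin 3 → E3), LH Ω ν e σ s T v G →
      v 0 =ᵐ[volume] u 0 →
      ipr (v T) (v T) + 2 * ν * (∫ τ in (0 : ℝ)..T, gg (G τ)) ≤ η * ipr (v 0) (v 0)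

theorem t_FINE_of (hCORE : S_CORE) (hEND : S_END) (hW1 : S_W1) (hW7 : S_W7) : S_FINE := by
  intro ν Ω η hν hΩ hbdΩ hne hη
  set η₂ : ℝ := min (η / 3) (1 / 100) with hη₂
  have hη₂0 : 0 < η₂ := lt_min (by linarith) (by norm_num)
  have hη₂1 : η₂ ≤ 1 / 100 := min_le_right _ _
  have hη₂2 : η₂ ≤ η / 3 := min_le_left _ _
  obtain ⟨ι, e, σ, s, i₀, T, u, C⟩ := hCORE ν Ω η₂ hν hΩ hbdΩ hne hη₂0 hη₂1
  obtain ⟨y, hy1, hy2, hy3⟩ := C.fin
  have hone : ipr (u 0) (u 0) = 1 := by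
    rw [C.u0]
    exact (C.skew.orth i₀ i₀).1 rfl
  obtain ⟨v, hv1, hv2, hv3, hv4⟩ := hEND Ω ν ι e σ s T η₂ u y hΩ hbdΩ hν C.hT C.co C.skew C.sol
    (fun t ht => (C.smooth t ht).of_le two_le) C.en hone C.enl hy1 hy2 hy3 hη₂0 (by linarith)
  have h0 : (0 : ℝ) ∈ Ico 0 T := ⟨le_rfl, C.hT⟩
  have hLH := lh_of_weak hW1 hΩ hbdΩ hν C hv1 hv2
  -- uniqueness
  have huniq : ∀ (T' : ℝ) (w : ℝ → E3 → E3) (G : ℝ → E3 → Fin 3 → E3), 0 < T' → T' ≤ T →
      LH Ω ν e σ s T' w G → w 0 =ᵐ[volume] v 0 → ∀ t ∈ Icc 0 T', w t =ᵐ[volume] v t := by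
    intro T' w G hT' hTT hw hw0 t ht
    have hw0' : w 0 =ᵐ[volume] u 0 := by rwa [hv1 0 h0] at hw0
    have hlt : ∀ t ∈ Icc 0 T', t < T → w t =ᵐ[volume] v t := by
      intro t ht htT
      rw [hv1 t ⟨ht.1, htT⟩]
      exact hW7 Ω ν ι e σ s T T' u w G hΩ hbdΩ hν (core_str C) hT' hTT hw hw0' t ht htT
    rcases lt_or_eq_of_le (ht.2.trans hTT) with h1 | h1
    · exact hlt t ht h1
    · -- the final time
      have hTT' : T' = T := le_antisymm hTT (h1 ▸ ht.2)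
      subst h1
      subst hTT'
      refine ae_of_coef C.skew (hw.inH _ ht) (hv2.inH _ ht) fun i => ?_
      have hei : InH Ω (e i) := Pool.Agent.Y284.EJ.inH_cs (C.skew.field i)
      have c1 := (hw.cont (e i) hei T' ht).mono (Ico_subset_Icc_self)
      have c2 := (hv2.cont (e i) hei T' ht).mono (Ico_subset_Icc_self)
      have hne : (𝓝[Ico 0 T'] T').NeBot := by
        rw [← mem_closure_iff_nhdsWithin_neBot, closure_Ico hT'.ne]
        exact right_mem_Icc.2 hT'.le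
      refine tendsto_nhds_unique c1 (c2.congr' ?_)
      refine eventually_nhdsWithin_of_forall fun τ hτ => ?_
      exact (Pool.Agent.Y284.EJ.ipr_congr_left (hlt τ ⟨hτ.1, hτ.2.le⟩ hτ.2)).symm
  refine ⟨ι, e, σ, s, i₀, T, v, C.skew, C.hT, by rw [hv1 0 h0, C.u0], hLH,
    solD_congr C.sol hv1, fun t ht => by rw [hv1 t ht]; exact C.smooth t ht, ?_, ?_, huniq, ?_⟩
  · intro k T' hT'
    obtain ⟨M, hM⟩ := C.der k T' hT'
    refine ⟨M, fun t ht => ?_⟩
    rw [hv1 t ⟨ht.1, ht.2.trans_lt hT'⟩]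
    exact hM t ht
  · intro t ht
    simp only [gg_gr]
    rw [hv3 t ht, hv1 0 h0, hone]
  · intro w G hw hw0
    have hTI : T ∈ Icc 0 T := ⟨C.hT.le, le_rfl⟩
    have e1 : ∀ t ∈ Icc 0 T, ipr (w t) (w t) = ipr (v t) (v t) := by
      intro t ht
      have h1 := huniq T w G C.hT le_rfl hw hw0 t ht
      rw [Pool.Agent.Y284.EJ.ipr_congr_left h1, Pool.Agent.Y500.SK.ipr_comm,
        Pool.Agent.Y284.EJ.ipr_congr_left h1]
    have e0 : ipr (w 0) (w 0) = 1 := by rw [e1 0 ⟨le_rfl, C.hT.le⟩, hv1 0 h0, hone]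
    -- the energy at the end
    have e2 : ipr (v T) (v T) ≤ 2 * η₂ := by
      have h2 : 0 ≤ ∫ τ in (0 : ℝ)..T, dirf (v τ) (v τ) :=
        intervalIntegral.integral_nonneg C.hT.le fun r _ => dirf_nonneg _
      have h3 : 0 ≤ 2 * ν * ∫ τ in (0 : ℝ)..T, dirf (v τ) (v τ) := by positivity
      linarith
    -- the dissipation
    have e3 : ∀ t ∈ Ico 0 T, 2 * ν * (∫ τ in (0 : ℝ)..t, gg (G τ)) ≤ η₂ := by
      intro t ht
      have h2 := hw.energy t ⟨ht.1, ht.2.le⟩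
      rw [e1 t ⟨ht.1, ht.2.le⟩, e0, hv1 t ht] at h2
      have h3 := C.enl t ht
      linarith
    have hGi : IntervalIntegrable (fun τ => gg (G τ)) volume 0 T := by
      rw [intervalIntegrable_iff_integrableOn_Ioo_of_le C.hT.le]
      exact hw.diss
    have hcont : ContinuousOn (fun t => ∫ τ in (0 : ℝ)..t, gg (G τ)) (Icc 0 T) := by
      have := intervalIntegral.continuousOn_primitive_interval' hGi left_mem_uIcc
      rwa [uIcc_of_le C.hT.le] at this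
    have e4 : 2 * ν * (∫ τ in (0 : ℝ)..T, gg (G τ)) ≤ η₂ := by
      have hne : (𝓝[Ico 0 T] T).NeBot := by
        rw [← mem_closure_iff_nhdsWithin_neBot, closure_Ico C.hT.ne]
        exact right_mem_Icc.2 C.hT.le
      have h5 : Tendsto (fun t => 2 * ν * ∫ τ in (0 : ℝ)..t, gg (G τ)) (𝓝[Ico 0 T] T)
          (𝓝 (2 * ν * ∫ τ in (0 : ℝ)..T, gg (G τ))) :=
        (((hcont T hTI).mono Ico_subset_Icc_self).const_mul (2 * ν) :)
      exact le_of_tendsto h5 (eventually_nhdsWithin_of_forall fun t ht => e3 t ht)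
    rw [e1 T hTI, e0]
    linarith

end Pool.Agent.Y303.EJ
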