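import Pool.Agent.Y303.EJ.Res
import Pool.Agent.Y310.EJ.W2
import Pool.Agent.Y151.EJ.W3
import Pool.Agent.Y401.EJ.W4
import Pool.Agent.Y484.EJ.Prod
import Pool.Agent.Y812.EJ.W6
import Pool.Agent.Y702.EJ.PRGR

/-! Project EJ: the final theorem. -/

set_option autoImplicit false

namespace Pool.Agent.Y303.EJ

theorem t_W7' : S_W7 :=
  Pool.Agent.Y284.EJ.t_W7
    (Pool.Agent.Y484.EJ.t_W5 Pool.Agent.Y310.EJ.t_W2 Pool.Agent.Y151.EJ.t_W3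
      Pool.Agent.Y401.EJW.t_W4 Pool.Agent.Y702.EJ.t_PR Pool.Agent.Y936.EJ.t_WC)
    (Pool.Agent.Y812.EJ.W6.t_W6 Pool.Agent.Y310.EJ.t_W2) Pool.Agent.Y702.EJ.t_GR
    Pool.Agent.Y936.EJ.t_WC

theorem t_FINE : S_FINE := t_FINE_of t_CORE t_END' Pool.Agent.Y810.EJ.t_W1 t_W7'

end Pool.Agent.Y303.EJ
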