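import Pool.Agent.Y303.EJ.Fin
import Pool.Agent.Y303.SK.Res

/-!
Project EJ: the form in which the main theorem is stated (fields on `EuclideanSpace ℝ (Fin 3)`).
The definitions `dvg`, `CS`, `ipr`, `dirf`, `adv`, `InH`, `SkewD`, `SolD`, `SmD` are in
`Pool.Agent.Y303.SK.Res`.
-/

open Set MeasureTheory

set_option autoImplicit false

namespace Pool.Agent.Y303.EJR

open Pool.Agent.Y303.SKR

/-- the gradient `(∂₀ u, ∂₁ u, ∂₂ u)` of a differentiable field -/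
noncomputable def gr (u : EuclideanSpace ℝ (Fin 3) → EuclideanSpace ℝ (Fin 3))
    (x : EuclideanSpace ℝ (Fin 3)) (i : Fin 3) : EuclideanSpace ℝ (Fin 3) :=
  fderiv ℝ u x (EuclideanSpace.single i 1)

/-- `∫ G : ∇w` -/
noncomputable def gf (G : EuclideanSpace ℝ (Fin 3) → Fin 3 → EuclideanSpace ℝ (Fin 3))
    (w : EuclideanSpace ℝ (Fin 3) → EuclideanSpace ℝ (Fin 3)) : ℝ :=
  ∫ x, ∑ i : Fin 3, inner ℝ (G x i) (gr w x i)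

/-- `∫ (∑ v_i G_i) · w`, that is `∫ ((v · ∇) v) · w` if `G = ∇v` -/
noncomputable def av (v : EuclideanSpace ℝ (Fin 3) → EuclideanSpace ℝ (Fin 3))
    (G : EuclideanSpace ℝ (Fin 3) → Fin 3 → EuclideanSpace ℝ (Fin 3))
    (w : EuclideanSpace ℝ (Fin 3) → EuclideanSpace ℝ (Fin 3)) : ℝ :=
  ∫ x, inner ℝ (∑ i : Fin 3, v x i • G x i) (w x)

/-- `∫ |G|²` -/
noncomputable def gg (G : EuclideanSpace ℝ (Fin 3) → Fin 3 → EuclideanSpace ℝ (Fin 3)) : ℝ :=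
  ∫ x, ∑ i : Fin 3, ‖G x i‖ ^ 2

/-- `v` belongs to the closure in `H¹` of the smooth compactly supported divergence-free fields
in `Ω`, and `G` is its gradient. -/
def H1 (Ω : Set (EuclideanSpace ℝ (Fin 3)))
    (v : EuclideanSpace ℝ (Fin 3) → EuclideanSpace ℝ (Fin 3))
    (G : EuclideanSpace ℝ (Fin 3) → Fin 3 → EuclideanSpace ℝ (Fin 3)) : Prop :=
  MemLp v 2 volume ∧ (∀ i, MemLp (fun x => G x i) 2 volume) ∧ ∀ ε > 0, ∃ w, CS Ω w ∧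
    ∫ x, ‖v x - w x‖ ^ 2 < ε ∧ ∫ x, ∑ i : Fin 3, ‖G x i - gr w x i‖ ^ 2 < ε

/-- Weak (Leray-Hopf) solutions on `[0, T]` of `∂ₜ v + (v · ∇) v + ∇p = ν Δ v + K v`, `div v = 0`
in `Ω`, `v = 0` on `∂Ω`, where `K = ∑ s i ⟨·, e (σ i)⟩ e i`; `G` is the gradient of `v`. The
equation is tested with the complete system `e` (in time it is written in integrated form). -/
structure LH {ι : Type} (Ω : Set (EuclideanSpace ℝ (Fin 3))) (ν : ℝ)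
    (e : ι → EuclideanSpace ℝ (Fin 3) → EuclideanSpace ℝ (Fin 3)) (σ : ι → ι) (s : ι → ℝ)
    (T : ℝ) (v : ℝ → EuclideanSpace ℝ (Fin 3) → EuclideanSpace ℝ (Fin 3))
    (G : ℝ → EuclideanSpace ℝ (Fin 3) → Fin 3 → EuclideanSpace ℝ (Fin 3)) : Prop where
  inH : ∀ t ∈ Icc 0 T, InH Ω (v t)
  cont : ∀ w, InH Ω w → ContinuousOn (fun t => ipr (v t) w) (Icc 0 T)
  grad : ∀ᵐ t ∂(volume.restrict (Ioo 0 T)), H1 Ω (v t) (G t)
  diss : IntegrableOn (fun t => gg (G t)) (Ioo 0 T) volume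
  int : ∀ i, IntegrableOn (fun τ => s i * ipr (v τ) (e (σ i)) - ν * gf (G τ) (e i) -
    av (v τ) (G τ) (e i)) (Ioo 0 T) volume
  eqn : ∀ i, ∀ t ∈ Icc 0 T, ipr (v t) (e i) = ipr (v 0) (e i) +
    ∫ τ in (0 : ℝ)..t, (s i * ipr (v τ) (e (σ i)) - ν * gf (G τ) (e i) - av (v τ) (G τ) (e i))
  energy : ∀ t ∈ Icc 0 T, ipr (v t) (v t) + 2 * ν * (∫ τ in (0 : ℝ)..t, gg (G τ)) ≤
    ipr (v 0) (v 0)

open Pool.Agent.Y5 (E3)

theorem h1_iff {Ω : Set E3} {v : E3 → E3} {G : E3 → Fin 3 → E3} :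
    H1 Ω v G ↔ EJ.H1w Ω v G := by
  constructor
  · rintro ⟨h1, h2, h3⟩
    refine ⟨h1, h2, fun ε hε => ?_⟩
    obtain ⟨w, hw, hw2, hw3⟩ := h3 ε hε
    exact ⟨w, cs_iff.1 hw, hw2, hw3⟩
  · rintro ⟨h1, h2, h3⟩
    refine ⟨h1, h2, fun ε hε => ?_⟩
    obtain ⟨w, hw, hw2, hw3⟩ := h3 ε hε
    exact ⟨w, cs_iff.2 hw, hw2, hw3⟩

theorem lh_iff {ι : Type} {Ω : Set E3} {ν : ℝ} {e : ι → E3 → E3} {σ : ι → ι} {s : ι → ℝ}
    {T : ℝ} {v : ℝ → E3 → E3} {G : ℝ → E3 → Fin 3 → E3} :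
    LH Ω ν e σ s T v G ↔ EJ.LH Ω ν e σ s T v G := by
  constructor
  · intro h
    exact ⟨fun t ht => inH_iff.1 (h.inH t ht), fun w hw => h.cont w (inH_iff.2 hw),
      h.grad.mono fun t ht => h1_iff.1 ht, h.diss, h.int, h.eqn, h.energy⟩
  · intro h
    exact ⟨fun t ht => inH_iff.2 (h.inH t ht), fun w hw => h.cont w (inH_iff.1 hw),
      h.grad.mono fun t ht => h1_iff.2 ht, h.diss, h.int, h.eqn, h.energy⟩

theorem t_RES_of (hF : EJ.S_FINE) (ν : ℝ) (Ω : Set (EuclideanSpace ℝ (Fin 3))) (η : ℝ)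
    (hν : 0 < ν) (hΩ : IsOpen Ω) (hb : Bornology.IsBounded Ω) (hne : Ω.Nonempty) (hη : 0 < η) :
    ∃ (ι : Type) (e : ι → EuclideanSpace ℝ (Fin 3) → EuclideanSpace ℝ (Fin 3)) (σ : ι → ι)
      (s : ι → ℝ) (i₀ : ι) (T : ℝ) (u : ℝ → EuclideanSpace ℝ (Fin 3) → EuclideanSpace ℝ (Fin 3)),
      SkewD Ω e σ s ∧ 0 < T ∧ u 0 = e i₀ ∧
      LH Ω ν e σ s T u (fun t => gr (u t)) ∧
      SolD Ω ν e σ s T u ∧ SmD T u ∧
      (∀ t ∈ Ico 0 T, ipr (u t) (u t) + 2 * ν * (∫ τ in (0 : ℝ)..t, gg (gr (u τ))) =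
        ipr (u 0) (u 0)) ∧
      (∀ (T' : ℝ) (v : ℝ → EuclideanSpace ℝ (Fin 3) → EuclideanSpace ℝ (Fin 3))
        (G : ℝ → EuclideanSpace ℝ (Fin 3) → Fin 3 → EuclideanSpace ℝ (Fin 3)), 0 < T' →
        T' ≤ T → LH Ω ν e σ s T' v G → v 0 =ᵐ[volume] u 0 →
        ∀ t ∈ Icc 0 T', v t =ᵐ[volume] u t) ∧
      ∀ (v : ℝ → EuclideanSpace ℝ (Fin 3) → EuclideanSpace ℝ (Fin 3))
        (G : ℝ → EuclideanSpace ℝ (Fin 3) → Fin 3 → EuclideanSpace ℝ (Fin 3)),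
        LH Ω ν e σ s T v G → v 0 =ᵐ[volume] u 0 →
        ipr (v T) (v T) + 2 * ν * (∫ τ in (0 : ℝ)..T, gg (G τ)) ≤ η * ipr (v 0) (v 0) := by
  obtain ⟨ι, e, σ, s, i₀, T, u, h1, h2, h3, h4, h5, h6, h7, h8, h9, h10⟩ :=
    hF ν Ω η hν hΩ hb hne hη
  refine ⟨ι, e, σ, s, i₀, T, u, skewD_iff.2 h1, h2, h3, lh_iff.2 h4, solD_iff.2 h5, ⟨h6, h7⟩, h8,
    ?_, ?_⟩
  · intro T' v G hT' hTT hv hv0
    exact h9 T' v G hT' hTT (lh_iff.1 hv) hv0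
  · intro v G hv hv0
    exact h10 v G (lh_iff.1 hv) hv0

end Pool.Agent.Y303.EJR
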