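import Pool.Agent.Y303.EJ.Defs

/-!
Project EJ: exact statements of the steps.
-/

open Set Filter Topology MeasureTheory Metric

set_option autoImplicit false

namespace Pool.Agent.Y303.EJ

open Pool.Agent.Y5 (E3 Y Pr)
open Pool.Agent.Y5.D (Ix qd vf3 Init)
open Pool.Agent.Y6.N (Rot lin src ph XSol TSol)
open Pool.Agent.Y6.K (Kz lv)
open Pool.Agent.Y303.SK

/-! ### The chain: basic facts -/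

/-- Numerical facts. -/
def S_NUM : Prop := ∀ (η : ℝ) (lm L C ℓ : ℕ → ℝ) (B : ℕ → ℕ → ℝ), SeqE η lm L C ℓ B →
  Num η lm L C ℓ

/-- A solution of the perturbed system of the main modes is a chain. -/
def S_CH : Prop := ∀ (η : ℝ) (lm L C ℓ : ℕ → ℝ) (B : ℕ → ℕ → ℝ) (T : ℝ) (x f : ℕ → ℝ → ℝ),
  SeqE η lm L C ℓ B → Num η lm L C ℓ → 0 < T →
  (∀ n, ∀ t ∈ Ico 0 T, HasDerivWithinAt (x n)
      (vf3 L C ℓ B (fun m => x m t) n + f n t) (Ico 0 T) t) →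
  (∀ T' < T, ∃ Mx, ∀ t ∈ Icc 0 T', ∀ n, L n ^ 10 * |x n t| ≤ Mx) →
  (∀ t ∈ Ico 0 T, ∑' n, x n t ^ 2 ≤ 1) →
  (∀ n, ∀ t ∈ Ico 0 T, |f n t| ≤ ph lm 0 * |x n t| + ph lm n) →
  x 0 0 = 1 → (∀ n, x (n + 1) 0 = 0) →
  Ch η lm L C ℓ B T x (fun n t => √(Y x n t)) (fun n t => ∑' j, ℓ (n + j) * x (n + j) t ^ 2)

section

variable (η : ℝ) (lm L C ℓ : ℕ → ℝ) (B : ℕ → ℕ → ℝ) (T : ℝ) (x R V : ℕ → ℝ → ℝ)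

/-- upper bound for the growth -/
def GROW : Prop := ∀ (n : ℕ) (a b : ℝ), 0 ≤ a → a ≤ b → b < T →
  R (n + 1) b ≤ Real.exp (Ex L R (n + 1) b - Ex L R (n + 1) a + e0 lm * (b - a)) *
    (R (n + 1) a + (L n * C n + 2 * ph lm (n + 1)) * (b - a))

/-- size in terms of the clock -/
def GZ : Prop := ∀ (n : ℕ), ∀ t ∈ Ico 0 T,
  R (n + 1) t ≤ 2 * Th L R n t + t * (L n * C n + 2 * ph lm (n + 1))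

/-- speed of change of the modes -/
def LIP : Prop := ∀ (n : ℕ) (a b : ℝ), 0 ≤ a → a ≤ b → b < T →
  |x n b - x n a| ≤ 3 * L n * (b - a)

/-- upper bound of `R (n + 2)` by the clock `n` -/
def UPA : Prop := (∀ t ∈ Ico 0 T, L 0 * t ≤ 3 * lm 0 →
    R 1 t ≤ Real.exp (L 0 * t - (Real.pi / 2 - dl η 0 / 100) * lm 0)) ∧
  ∀ (n : ℕ), ∀ t ∈ Ico 0 T, L 0 * t ≤ 3 * lm 0 → (∀ i < n, Th L R i t ≤ 2) →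
    R (n + 2) t ≤ Real.exp (lm (n + 1) * (Th L R n t - Real.pi / 2 + dl η (n + 1) / 100))

/-- the modes of high index are extremely small -/
def FAR : Prop := ∀ (n : ℕ), ∀ t ∈ Ico 0 T, His η lm L R n t → ∀ m ≥ n + 2,
  R (m + 1) t ≤ Real.exp (-(lm m / 2)) ∧ Th L R m t ≤ Real.exp (-(lm m / 4))

/-- the mode `n + 2` is not very negative -/
def NEG : Prop := ∀ (n : ℕ), ∀ t ∈ Ico 0 T, His η lm L R n t →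
  -Real.exp (-(lm (n + 2) / 2)) ≤ x (n + 2) t

/-- lower bound of the mode `n + 2` by the clock `n` -/
def LOW : Prop := ∀ (n : ℕ) (a b : ℝ), 0 ≤ a → a ≤ b → b < T → His η lm L R n b →
  b - a ≤ 1 / (dl η (n + 1) * L n) →
  (∀ t ∈ Icc a b, dl η (n + 1) / 10 ≤ x (n + 1) t ∧
    (1 - dl η (n + 1) / 100) * R (n + 1) t ≤ x (n + 1) t) →
  Th L R n a ≤ dl η (n + 1) / 4 → dl η (n + 1) / 2 ≤ Th L R n b →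
  Real.exp (lm (n + 1) * (Th L R n b - Real.pi / 2 - 3 / 4 * dl η (n + 1))) ≤ x (n + 2) b

/-- the rotation during the stage `n` -/
def ROT : Prop := ∀ (n : ℕ) (a b : ℝ), 0 ≤ a → a ≤ b → b < T → His η lm L R n b →
  b - a ≤ 1 / (dl η (n + 1) * L n) → (∀ t ∈ Icc a b, cn η n / 10 ≤ R (n + 1) t) →
  R (n + 1) a ≤ 3 * cn η n → Th L R n a = cn η n → 0 ≤ x n a →
  |x n b - x n a * Real.cos (Th L R n b)| ≤ 10 * cn η n ∧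
    |R (n + 1) b - x n a * Real.sin (Th L R n b)| ≤ 10 * cn η n

/-- The stage `n`, up to the time `b`. -/
def STG : Prop := ∀ (n : ℕ) (a b : ℝ), 0 ≤ a → a ≤ b → b < T → L 0 * a ≤ 29 / 10 * lm 0 →
  (∀ i < n, Th L R i b ≤ 2) → Th L R n b ≤ Real.pi / 2 + dl η (n + 1) →
  Th L R (n + 1) b ≤ cn η (n + 1) → Th L R n a = cn η n → 95 / 100 ≤ x n a →
  cn η n / 4 ≤ x (n + 1) a →
  His η lm L R n b ∧ b - a ≤ 1 / (2 * (dl η (n + 1) * L n)) ∧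
  |x n b - x n a * Real.cos (Th L R n b)| ≤ 10 * cn η n ∧
  |R (n + 1) b - x n a * Real.sin (Th L R n b)| ≤ 10 * cn η n ∧
  cn η n / 10 ≤ R (n + 1) b ∧
  (1 - dl η (n + 1) / 100) * R (n + 1) b ≤ x (n + 1) b

/-- the energy is almost conserved -/
def ENL : Prop := ∀ (n : ℕ), ∀ t ∈ Ico 0 T, His η lm L R n t → 1 - η ^ 2 / 100 ≤ R 0 t ^ 2

/-- the beginning of the stage `n + 1` -/
def NEXT : Prop := ∀ (n : ℕ) (a b : ℝ), 0 ≤ a → a ≤ b → b < T → His η lm L R n b →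
  b - a ≤ 1 / (dl η (n + 1) * L n) → (∀ t ∈ Icc a b, 1 / 2 ≤ x (n + 1) t) →
  4 / 10 * (Th L R (n + 1) b - Th L R (n + 1) a) - Real.exp (-(lm (n + 2) / 4)) ≤ x (n + 2) b

/-- the time before the stage `0` -/
def BASE : Prop := ∀ t ∈ Ico 0 T, Th L R 0 t ≤ cn η 0 →
  L 0 * t ≤ 2 * lm 0 ∧ 95 / 100 ≤ x 0 t ∧ (Th L R 0 t = cn η 0 → cn η 0 / 4 ≤ x 1 t)

end

def S_GROW : Prop := ∀ (η : ℝ) (lm L C ℓ : ℕ → ℝ) (B : ℕ → ℕ → ℝ) (T : ℝ) (x R V : ℕ → ℝ → ℝ),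
  Ch η lm L C ℓ B T x R V → GROW lm L C T R

def S_GZ : Prop := ∀ (η : ℝ) (lm L C ℓ : ℕ → ℝ) (B : ℕ → ℕ → ℝ) (T : ℝ) (x R V : ℕ → ℝ → ℝ),
  Ch η lm L C ℓ B T x R V → GZ lm L C T R

def S_LIP : Prop := ∀ (η : ℝ) (lm L C ℓ : ℕ → ℝ) (B : ℕ → ℕ → ℝ) (T : ℝ) (x R V : ℕ → ℝ → ℝ),
  Ch η lm L C ℓ B T x R V → LIP L T x

def S_UPA : Prop := ∀ (η : ℝ) (lm L C ℓ : ℕ → ℝ) (B : ℕ → ℕ → ℝ) (T : ℝ) (x R V : ℕ → ℝ → ℝ),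
  Ch η lm L C ℓ B T x R V → GROW lm L C T R → UPA η lm L T R

def S_FAR : Prop := ∀ (η : ℝ) (lm L C ℓ : ℕ → ℝ) (B : ℕ → ℕ → ℝ) (T : ℝ) (x R V : ℕ → ℝ → ℝ),
  Ch η lm L C ℓ B T x R V → UPA η lm L T R → FAR η lm L T R

def S_NEG : Prop := ∀ (η : ℝ) (lm L C ℓ : ℕ → ℝ) (B : ℕ → ℕ → ℝ) (T : ℝ) (x R V : ℕ → ℝ → ℝ),
  Ch η lm L C ℓ B T x R V → FAR η lm L T R → NEG η lm L T x R

def S_LOW : Prop := ∀ (η : ℝ) (lm L C ℓ : ℕ → ℝ) (B : ℕ → ℕ → ℝ) (T : ℝ) (x R V : ℕ → ℝ → ℝ),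
  Ch η lm L C ℓ B T x R V → FAR η lm L T R → NEG η lm L T x R → LOW η lm L T x R

def S_ROT : Prop := ∀ (η : ℝ) (lm L C ℓ : ℕ → ℝ) (B : ℕ → ℕ → ℝ) (T : ℝ) (x R V : ℕ → ℝ → ℝ),
  Ch η lm L C ℓ B T x R V → FAR η lm L T R → ROT η lm L T x R

def S_STG : Prop := ∀ (η : ℝ) (lm L C ℓ : ℕ → ℝ) (B : ℕ → ℕ → ℝ) (T : ℝ) (x R V : ℕ → ℝ → ℝ),
  Ch η lm L C ℓ B T x R V → GZ lm L C T R → UPA η lm L T R → FAR η lm L T R →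
    ROT η lm L T x R → STG η lm L T x R

def S_ENL : Prop := ∀ (η : ℝ) (lm L C ℓ : ℕ → ℝ) (B : ℕ → ℕ → ℝ) (T : ℝ) (x R V : ℕ → ℝ → ℝ),
  Ch η lm L C ℓ B T x R V → FAR η lm L T R → ENL η lm L T R

def S_NEXT : Prop := ∀ (η : ℝ) (lm L C ℓ : ℕ → ℝ) (B : ℕ → ℕ → ℝ) (T : ℝ) (x R V : ℕ → ℝ → ℝ),
  Ch η lm L C ℓ B T x R V → FAR η lm L T R → NEG η lm L T x R → NEXT η lm L T x R

def S_BASE : Prop := ∀ (η : ℝ) (lm L C ℓ : ℕ → ℝ) (B : ℕ → ℕ → ℝ) (T : ℝ) (x R V : ℕ → ℝ → ℝ),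
  Ch η lm L C ℓ B T x R V → GZ lm L C T R → UPA η lm L T R → FAR η lm L T R →
    NEG η lm L T x R → ENL η lm L T R → BASE η lm L T x R

/-- The theorem on the main modes. -/
def S_ODEE : Prop := ∀ (η : ℝ) (lm L C ℓ : ℕ → ℝ) (B : ℕ → ℕ → ℝ), SeqE η lm L C ℓ B →
  ∃ φ : ℕ → ℝ, (∀ n, 0 < φ n) ∧ ∃ T₁ : ℝ, 0 < T₁ ∧
    ∀ (T : ℝ) (x f : ℕ → ℝ → ℝ), 0 < T →
    (∀ n, ∀ t ∈ Ico 0 T, HasDerivWithinAt (x n)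
      (vf3 L C ℓ B (fun m => x m t) n + f n t) (Ico 0 T) t) →
    (∀ T' < T, ∃ Mx, ∀ t ∈ Icc 0 T', ∀ n, L n ^ 10 * |x n t| ≤ Mx) →
    (∀ t ∈ Ico 0 T, ∑' n, x n t ^ 2 ≤ 1) →
    (∀ n, ∀ t ∈ Ico 0 T, |f n t| ≤ φ 0 * |x n t| + φ n) →
    x 0 0 = 1 → (∀ n, x (n + 1) 0 = 0) →
    T ≤ T₁ ∧ (∀ t ∈ Ico 0 T, 1 - η ≤ ∑' n, x n t ^ 2) ∧
    ((∀ n, (∃ t ∈ Ico 0 T, 9 / 10 ≤ x n t) ∧
        ∃ s ∈ Ico 0 T, ∀ t ∈ Ico s T, |x n t| ≤ dl η n) ∨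
      ∃ n₀, ∀ t ∈ Ico 0 T, ∀ m, n₀ ≤ m → |x m t| ≤ Real.exp (-(lm (m - 1) / 200)))

/-! ### Adaptations of the steps of the project SK -/

/-- `SK.S_LIM3` with `SeqE`. -/
def S_LIME : Prop := ∀ (J : Type) (g o : J → ℕ) (σ : J → J) (τ : J → ℝ)
  (η : ℝ) (lm L C ℓ ρ : ℕ → ℝ) (B : ℕ → ℕ → ℝ) (R E : Ix J → ℝ) (D : Ix J → Ix J → ℝ)
  (c : Ix J → Ix J → Ix J → ℝ) (Θ : ℝ) (S : ℕ → ℝ) (b : J → ℝ), KD g L C ℓ ρ B R E D c →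
  SeqE η lm L C ℓ B → Rot o σ τ → 0 < Θ → (∀ j, 0 ≤ b j) → Summable b →
  ∀ Z : ℕ → Ix J → ℝ → ℝ, (∀ N, TSol Θ S o σ τ D c N (Z N)) →
  (∀ N j, ∀ t ∈ Icc (0 : ℝ) Θ, |Z N (Sum.inr j) t| ≤ b j) →
  ∀ U : Ultrafilter ℕ, (U : Filter ℕ) ≤ atTop → ∃ z : Ix J → ℝ → ℝ,
    (∀ i, ∀ t ∈ Icc (0 : ℝ) Θ, Tendsto (fun N => Z N i t) U (𝓝 (z i t))) ∧ Init z ∧
    (∀ t ∈ Icc (0 : ℝ) Θ, Summable (fun a => z a t ^ 2) ∧ ∑' a, z a t ^ 2 ≤ 1) ∧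
    (∀ j, ∀ t ∈ Icc (0 : ℝ) Θ, |z (Sum.inr j) t| ≤ b j) ∧
    ∀ θ, 0 ≤ θ → θ ≤ Θ →
      (∃ X, ∀ᶠ N in (U : Filter ℕ), ∀ t ∈ Icc 0 θ, ∀ n, L n * |Z N (Sum.inl n) t| ≤ X) →
      ∀ i, ∀ t ∈ Icc 0 θ, HasDerivWithinAt (z i)
        (Kz S o σ τ (fun a => z a t) i - lin D (fun a => z a t) i + qd c (fun a => z a t) i)
        (Icc 0 θ) t

/-- `SK.S_PB3` with `SeqE`. -/
def S_PBE : Prop := ∀ (J : Type) (g o : J → ℕ) (σ : J → J) (τ : J → ℝ)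
  (η : ℝ) (lm L C ℓ ρ φ : ℕ → ℝ) (B : ℕ → ℕ → ℝ) (R E : Ix J → ℝ) (D : Ix J → Ix J → ℝ)
  (c : Ix J → Ix J → Ix J → ℝ), KD g L C ℓ ρ B R E D c → SeqE η lm L C ℓ B → Rot o σ τ →
  (∀ n, 0 < φ n) → ∃ β : J → ℝ, (∀ j, 0 < β j) ∧ Summable β ∧
    ∀ z : Ix J → ℝ, Summable (fun a => z a ^ 2) → ∑' a, z a ^ 2 ≤ 1 →
      (∀ j, |z (Sum.inr j)| ≤ β j) → ∀ n,
      Summable (fun p : Ix J × Ix J => c (Sum.inl n) p.1 p.2 * z p.1 * z p.2) →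
      |qd c z (Sum.inl n) - lin D z (Sum.inl n) - vf3 L C ℓ B (fun m => z (Sum.inl m)) n|
        ≤ φ 0 * |z (Sum.inl n)| + φ n

/-- `Y6.N.S_PERS2` with `SeqE`. -/
def S_PERSE : Prop := ∀ (η : ℝ) (lm L C ℓ : ℕ → ℝ) (B : ℕ → ℕ → ℝ) (φ : ℕ → ℝ),
  SeqE η lm L C ℓ B →
  (∀ n, 0 < φ n) → (∀ k : ℕ, ∃ X, ∀ n, L n ^ k * φ n ≤ X) → ∀ (Θ : ℝ) (k : ℕ) (X : ℝ), ∃ Y : ℝ,
    ∀ (θ : ℝ) (x f : ℕ → ℝ → ℝ), 0 ≤ θ → θ ≤ Θ → XSol L C ℓ B φ 0 θ x f → x 0 0 = 1 →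
      (∀ n, x (n + 1) 0 = 0) → (∀ n, ∀ t ∈ Icc 0 θ, L n ^ 2 * |x n t| ≤ X) →
      (∃ X', ∀ n, ∀ t ∈ Icc 0 θ, L n ^ k * |x n t| ≤ X') →
      ∀ n, ∀ t ∈ Icc 0 θ, L n ^ k * |x n t| ≤ Y

/-- `Y6.N.S_LOC2` with `SeqE`. -/
def S_LOCE : Prop := ∀ (η : ℝ) (lm L C ℓ : ℕ → ℝ) (B : ℕ → ℕ → ℝ) (φ : ℕ → ℝ),
  SeqE η lm L C ℓ B →
  (∀ n, 0 < φ n) → (∀ k : ℕ, ∃ X, ∀ n, L n ^ k * φ n ≤ X) → ∀ X : ℝ, ∃ δ Y : ℝ, 0 < δ ∧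
    ∀ (a b : ℝ) (x f : ℕ → ℝ → ℝ), a ≤ b → b ≤ a + δ → XSol L C ℓ B φ a b x f →
      (∃ N : ℕ, ∀ n, N < n → ∀ t ∈ Icc a b, x n t = 0) → (∀ n, L n ^ 3 * |x n a| ≤ X) →
      ∀ n, ∀ t ∈ Icc a b, L n ^ 2 * |x n t| ≤ Y

/-- `SK.S_BLOW3` with `SeqE` and the behaviour at the end. -/
def S_BLOWE : Prop := ∀ (J : Type) (g o : J → ℕ) (σ : J → J) (τ : J → ℝ)
  (η : ℝ) (lm L C ℓ ρ : ℕ → ℝ) (B : ℕ → ℕ → ℝ) (R E : Ix J → ℝ) (D : Ix J → Ix J → ℝ)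
  (c : Ix J → Ix J → Ix J → ℝ) (β : J → ℝ), KD g L C ℓ ρ B R E D c → SeqE η lm L C ℓ B →
  Rot o σ τ → (∀ j, 0 < β j) → ∃ S : ℕ → ℝ, (∀ n, 1 ≤ S n) ∧ ∃ (T : ℝ) (z : Ix J → ℝ → ℝ),
    0 < T ∧ SolE η L o σ τ D c β S T z

/-- Parameters. -/
def S_PARE : Prop := ∀ a κ h q' G δ η : ℝ, 0 < a → 0 < κ → 0 < h → 0 < q' → 0 < G → 0 < δ →
  0 < η → η ≤ 1 / 100 → ∃ r α ε lm L : ℕ → ℝ, ParE a κ h q' G δ η r α ε lm L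

/-- `SK.S_MM` with `ParE`. -/
def S_MME : Prop := ∀ (p : E3) (Ψ H : E3 → E3) (a κ h q q' G δ η : ℝ) (r α ε lm L : ℕ → ℝ),
  Pk Ψ H a κ h q q' → ParE a κ h q' G δ η r α ε lm L →
  (∀ n, CS (ball p (r n)) (psi p Ψ H r α ε n)) ∧
  (∀ n, Low p (r (n + 1)) H (psi p Ψ H r α ε n) (Am a r α n) (ε n)) ∧
  (∀ n m, n + 2 ≤ m → Low p (r m) H (psi p Ψ H r α ε n) (Am a r α n) 0) ∧
  (∀ n, ipr (psi p Ψ H r α ε n) (psi p Ψ H r α ε n) = 1) ∧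
  ∀ n, 0 ≤ dirf (psi p Ψ H r α ε n) (psi p Ψ H r α ε n) ∧
    dirf (psi p Ψ H r α ε n) (psi p Ψ H r α ε n) * r n ^ 2 ≤ dirf Ψ Ψ + dirf H H

/-- `SK.S_INT` with `ParE`. -/
def S_INTE : Prop := ∀ (p : E3) (Ψ H : E3 → E3) (a κ h q q' G δ η : ℝ) (r α ε lm L : ℕ → ℝ),
  Pk Ψ H a κ h q q' → ParE a κ h q' G δ η r α ε lm L → ∀ (m : ℕ) (f f' : E3 → E3)
    (s θ s' θ' : ℝ),
  CS univ f → CS univ f' → Low p (r m) H f s θ → Low p (r m) H f' s' θ' →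
  ipr f (psi p Ψ H r α ε m) = 0 ∧ dirf f (psi p Ψ H r α ε m) = 0 ∧
  adv f f' (psi p Ψ H r α ε m) = -(θ * θ' * (Am a r α m * h)) ∧
  adv (psi p Ψ H r α ε m) f f' = 0 ∧
  adv (psi p Ψ H r α ε m) f (psi p Ψ H r α ε m) = -(s * (α m ^ 2 * κ - ε m ^ 2 * h))

/-- `SK.S_DERB` with `ParE`. -/
def S_DERBE : Prop := ∀ (p : E3) (Ψ H : E3 → E3) (a κ h q q' G δ η : ℝ) (r α ε lm L : ℕ → ℝ),
  Pk Ψ H a κ h q q' → ParE a κ h q' G δ η r α ε lm L → ∀ k : ℕ, ∃ (X : ℝ) (m : ℕ), ∀ n,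
    nk k (psi p Ψ H r α ε n) ≤ X * L n ^ m

/-- `SK.S_CONC` with `ParE`. -/
def S_CONCE : Prop := ∀ (ν : ℝ) (Ω : Set E3) (p : E3) (Ψ H : E3 → E3) (a κ h q q' δ η : ℝ)
  (r α ε lm L : ℕ → ℝ), 0 < ν → Pk Ψ H a κ h q q' →
  ParE a κ h q' (ν * (dirf Ψ Ψ + dirf H H)) δ η r α ε lm L → ball p (r 0) ⊆ Ω →
  ∀ (J : Type) (w : J → E3 → E3), Bas Ω p (psi p Ψ H r α ε) w →
  ∃ (g : J → ℕ) (ℓ ρ : ℕ → ℝ) (R E : Ix J → ℝ),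
    KD g L (fun n => ε n ^ 2 * (h / κ) * (L (n + 1) / L n)) ℓ ρ
      (fun _ n => α n ^ 2 - ε n ^ 2 * (h / κ)) R E (DD ν (em (psi p Ψ H r α ε) w))
      (cc (em (psi p Ψ H r α ε) w)) ∧
    SeqE η lm L (fun n => ε n ^ 2 * (h / κ) * (L (n + 1) / L n)) ℓ
      (fun _ n => α n ^ 2 - ε n ^ 2 * (h / κ))

/-! ### The end of the time interval -/

/-- Riesz-Fischer: fields with prescribed coefficients. -/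
def S_RF : Prop := ∀ (Ω : Set E3) (ι : Type) (e : ι → E3 → E3) (σ : ι → ι) (s : ι → ℝ)
  (y : ι → ℝ), IsOpen Ω → Bornology.IsBounded Ω → SkewD Ω e σ s → Countable ι →
  Summable (fun i => y i ^ 2) → ∃ v, InH Ω v ∧ (∀ i, ipr v (e i) = y i) ∧
    ipr v v = ∑' i, y i ^ 2

/-- Parseval, and weak continuity from the convergence of the coefficients. -/
def S_WC : Prop := ∀ (Ω : Set E3) (ι : Type) (e : ι → E3 → E3) (σ : ι → ι) (s : ι → ℝ),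
  IsOpen Ω → Bornology.IsBounded Ω → SkewD Ω e σ s → Countable ι →
  (∀ v, InH Ω v → Summable (fun i => ipr v (e i) ^ 2) ∧ ipr v v = ∑' i, ipr v (e i) ^ 2) ∧
  ∀ (T M : ℝ) (u : ℝ → E3 → E3), (∀ t ∈ Icc 0 T, InH Ω (u t) ∧ ipr (u t) (u t) ≤ M) →
    (∀ i, ContinuousOn (fun t => ipr (u t) (e i)) (Icc 0 T)) →
    ∀ v, InH Ω v → ContinuousOn (fun t => ipr (u t) v) (Icc 0 T)

/-- From the solution on `[0, T)` to the weak solution on `[0, T]`. -/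
def S_END : Prop := ∀ (Ω : Set E3) (ν : ℝ) (ι : Type) (e : ι → E3 → E3) (σ : ι → ι)
  (s : ι → ℝ) (T η : ℝ) (u : ℝ → E3 → E3) (y : ι → ℝ), IsOpen Ω → Bornology.IsBounded Ω →
  0 < ν → 0 < T → Countable ι → SkewD Ω e σ s → SolD Ω ν e σ s T u →
  (∀ t ∈ Ico 0 T, ContDiff ℝ 2 (u t)) →
  (∀ t ∈ Ico 0 T, HasDerivWithinAt (fun τ => ipr (u τ) (u τ)) (-(2 * (ν * dirf (u t) (u t))))
    (Ico 0 T) t) → ipr (u 0) (u 0) = 1 → (∀ t ∈ Ico 0 T, 1 - η ≤ ipr (u t) (u t)) →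
  (∀ i, ∃ s ∈ Ico 0 T, ∀ t ∈ Ico s T, |ipr (u t) (e i)| ≤ y i) →
  Summable (fun i => y i ^ 2) → ∑' i, y i ^ 2 ≤ η → 0 < η → η ≤ 1 / 2 →
  ∃ v : ℝ → E3 → E3, (∀ t ∈ Ico 0 T, v t = u t) ∧ WeakD Ω ν e σ s T v ∧
    (∀ t ∈ Ico 0 T, ipr (v t) (v t) + 2 * ν * (∫ τ in (0 : ℝ)..t, dirf (v τ) (v τ)) = 1) ∧
    ipr (v T) (v T) + 2 * ν * (∫ τ in (0 : ℝ)..T, dirf (v τ) (v τ)) ≤ 2 * η

/-! ### The main theorem -/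

/-- A Leray-Hopf solution which is smooth on `[0, T)` and loses almost all its energy at the
time `T`. -/
def S_MAINE : Prop := ∀ (ν : ℝ) (Ω : Set E3) (η : ℝ), 0 < ν → IsOpen Ω →
  Bornology.IsBounded Ω → Ω.Nonempty → 0 < η → ∃ (ι : Type) (e : ι → E3 → E3) (σ : ι → ι)
    (s : ι → ℝ) (i₀ : ι) (T : ℝ) (u : ℝ → E3 → E3), SkewD Ω e σ s ∧ 0 < T ∧ u 0 = e i₀ ∧
    WeakD Ω ν e σ s T u ∧ SolD Ω ν e σ s T u ∧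
    (∀ t ∈ Ico 0 T, ContDiff ℝ (⊤ : ℕ∞) (u t)) ∧
    (∀ k : ℕ, ∀ T' < T, ∃ M, ∀ t ∈ Icc 0 T', ∀ x, ‖iteratedFDeriv ℝ k (u t) x‖ ≤ M) ∧
    (∀ t ∈ Ico 0 T, ipr (u t) (u t) + 2 * ν * (∫ τ in (0 : ℝ)..t, dirf (u τ) (u τ)) =
      ipr (u 0) (u 0)) ∧
    ipr (u T) (u T) + 2 * ν * (∫ τ in (0 : ℝ)..T, dirf (u τ) (u τ)) ≤ η * ipr (u 0) (u 0)

end Pool.Agent.Y303.EJ
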